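import Pool.Agent.W5h26.ES.Few
import Pool.Agent.TH270.MS.EQ3
import Pool.Agent.TH270.MS.GrowthF

/-!
# The product of Birch and Swinnerton-Dyer outside sets with a power saving
-/

set_option autoImplicit false

open MeasureTheory Filter Topology Set Complex
open scoped ENNReal
open Pool.Agent.TH942.LS (Dat)
open Pool.Agent.TH942.SL
open Pool.Agent.TH942.ES
open Pool.Agent.TH270.MS Pool.Agent.TH270.MS.EQ
open Pool.Agent.TH270.RS (cS')
open Pool.Agent.W263.BSD (GoodPrime pointCount IsLSeries bsdProduct bsdStar bsdProduct_pos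
  bsdStar_pos rsSum)

namespace Pool.Agent.W5h26.ES

variable {a b : ℤ} {F : ℂ → ℂ}

/-- the partial sums and the product -/
theorem sh_product (hΔ : 4 * a ^ 3 + 27 * b ^ 2 ≠ 0) (hrs : Tendsto (rsSum a b) atTop (𝓝 0))
    {e : {p : ℕ // GoodPrime a b p} × ℕ → ℕ} (he : Function.Injective e) :
    Tendsto (fun u : ℝ => Sh (lamS (nQ a b) e) (cS' (nQ a b) (alQ a b) e) u -
      Real.log (bsdProduct a b (Real.exp u))) atTop (𝓝 (-(Real.log 2 / 2))) := by
  obtain ⟨K, hK⟩ := star_close a b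
  have h1 : Tendsto (fun x : ℝ => Real.log (bsdStar a b x) + Pl (nQ a b) (alQ a b) x) atTop
      (𝓝 0) := by
    have h2 : Tendsto (fun x : ℝ => K * x ^ (-(1 / 12 : ℝ))) atTop (𝓝 0) := by
      have := (tendsto_rpow_neg_atTop (y := 1 / 12) (by norm_num)).const_mul K
      rwa [mul_zero] at this
    refine squeeze_zero_norm' ?_ h2
    filter_upwards [eventually_ge_atTop (Real.exp 1)] with x hx
    rw [Real.norm_eq_abs]
    exact hK x hx
  have h3 := ((corr_lim hΔ hrs).sub h1).comp Real.tendsto_exp_atTop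
  rw [sub_zero] at h3
  refine h3.congr fun u => ?_
  simp only [Function.comp_apply]
  rw [sh_eq (sysQ a b) he]
  ring

lemma product_floor (x : ℝ) : bsdProduct a b x = bsdProduct a b ((⌊x⌋₊ : ℕ) : ℝ) := by
  unfold bsdProduct
  rw [Nat.floor_natCast]

/-- `n = ⌊e^u⌋` is large and close to `e^u` -/
lemma floor_facts {u : ℝ} (hu : 2 ≤ u) : (1 : ℝ) < ⌊Real.exp u⌋₊ ∧
    ((⌊Real.exp u⌋₊ : ℕ) : ℝ) ≤ Real.exp u ∧ Real.exp u / 2 ≤ ((⌊Real.exp u⌋₊ : ℕ) : ℝ) ∧
    |u - Real.log (⌊Real.exp u⌋₊ : ℕ)| ≤ 2 * Real.exp (-u) := by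
  have h1 : (⌊Real.exp u⌋₊ : ℝ) ≤ Real.exp u := Nat.floor_le (Real.exp_pos _).le
  have h2 : Real.exp u < ⌊Real.exp u⌋₊ + 1 := Nat.lt_floor_add_one _
  have h3 : (4 : ℝ) ≤ Real.exp u := by
    have e1 : Real.exp 2 ≤ Real.exp u := Real.exp_le_exp.2 hu
    have e2 : Real.exp 2 = Real.exp 1 * Real.exp 1 := by rw [← Real.exp_add]; norm_num
    have e3 := Real.exp_one_gt_d9
    nlinarith
  refine ⟨by linarith, h1, by linarith, ?_⟩
  have h0 : (0 : ℝ) < ⌊Real.exp u⌋₊ := by linarith
  have h4 : u = Real.log (Real.exp u) := (Real.log_exp u).symm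
  have h5 : Real.log (⌊Real.exp u⌋₊ : ℕ) ≤ u := by
    conv_rhs => rw [h4]
    exact Real.log_le_log h0 h1
  rw [abs_of_nonneg (by linarith)]
  have h40 : u - Real.log (⌊Real.exp u⌋₊ : ℕ) = Real.log (Real.exp u / ⌊Real.exp u⌋₊) := by
    rw [Real.log_div (Real.exp_pos _).ne' h0.ne', Real.log_exp]
  rw [h40]
  have h6 := Real.log_le_sub_one_of_pos (x := Real.exp u / ⌊Real.exp u⌋₊)
    (div_pos (Real.exp_pos _) h0)
  refine h6.trans ?_
  have h7 : Real.exp u / ⌊Real.exp u⌋₊ - 1 = (Real.exp u - ⌊Real.exp u⌋₊) / ⌊Real.exp u⌋₊ := by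
    field_simp
  rw [h7, div_le_iff₀ h0]
  have h8 : Real.exp (-u) * Real.exp u = 1 := by rw [← Real.exp_add, neg_add_cancel, Real.exp_zero]
  have h9 : (1 : ℝ) ≤ 2 * Real.exp (-u) * ⌊Real.exp u⌋₊ := by
    have h10 : 2 * Real.exp (-u) * (Real.exp u / 2) ≤ 2 * Real.exp (-u) * ⌊Real.exp u⌋₊ :=
      mul_le_mul_of_nonneg_left (by linarith) (by positivity)
    nlinarith
  linarith

lemma not_few_of_all {S : ℕ → Prop} (h : ∀ᶠ n : ℕ in atTop, S n) : ¬ Few S := by
  classical
  rintro ⟨l, hl, hF⟩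
  obtain ⟨n₀, hn₀⟩ := eventually_atTop.1 h
  obtain ⟨X, h1, h2, h3⟩ := (hF.and ((eventually_ge_atTop n₀).and (eventually_ge_atTop 1))).exists
  have hX : (1 : ℝ) ≤ X := by exact_mod_cast h3
  have e1 : (Finset.Icc X (2 * X)).filter S = Finset.Icc X (2 * X) := by
    refine Finset.filter_true_of_mem fun m hm => hn₀ m ?_
    exact h2.trans (Finset.mem_Icc.1 hm).1
  have e2 : ((Finset.Icc X (2 * X)).card : ℝ) = X + 1 := by
    rw [Nat.card_Icc]
    have : 2 * X + 1 - X = X + 1 := by omega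
    rw [this]
    push_cast
    rfl
  have e3 : (X : ℝ) ^ (1 - l) ≤ X := by
    calc (X : ℝ) ^ (1 - l) ≤ (X : ℝ) ^ (1 : ℝ) :=
          Real.rpow_le_rpow_of_exponent_le hX (by linarith)
      _ = X := Real.rpow_one _
  have e4 : (((Finset.Icc X (2 * X)).filter S).card : ℝ) ≤ (X : ℝ) ^ (1 - l) := by
    convert h1
  rw [e1, e2] at e4
  linarith

/-- **the zeros and the exceptions to the bound `|log P(n)| ≤ n^(θ + ε)`** -/
theorem curve_quasi (hΔ : 4 * a ^ 3 + 27 * b ^ 2 ≠ 0) (hF : IsLSeries a b F)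
    (hrs : Tendsto (rsSum a b) atTop (𝓝 0)) {η C₀ : ℝ} {κ : ℕ} (hη : 0 < η)
    (hg : ∀ s : ℂ, 1 - η < s.re → ‖F s‖ ≤ C₀ * (1 + ‖s‖) ^ κ) {θ : ℝ} (hθ : 0 ≤ θ) :
    (∀ s : ℂ, 1 + θ < s.re → F s ≠ 0) ↔
      ∀ ε : ℝ, 0 < ε → Few fun n => (n : ℝ) ^ (θ + ε) < |Real.log (bsdProduct a b n)| := by
  have H := curve_mc hF hη hg
  obtain ⟨e, g, p, he, Q⟩ := H.cn
  set lam := lamS (nQ a b) e with hlam
  set c := cS' (nQ a b) (alQ a b) e with hc
  have D := Q.D
  have hlim := sh_product hΔ hrs he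
  rw [← hlam, ← hc] at hlim
  have hclose : ∀ᶠ u : ℝ in atTop, |Sh lam c u - Real.log (bsdProduct a b (Real.exp u))| ≤ 1 := by
    have h1 : Tendsto (fun u : ℝ => |Sh lam c u - Real.log (bsdProduct a b (Real.exp u))|) atTop
      (𝓝 |-(Real.log 2 / 2)|) := hlim.abs
    refine (h1.eventually (gt_mem_nhds ?_)).mono fun u hu => hu.le
    rw [abs_neg, abs_of_pos (by have := Real.log_pos one_lt_two; linarith)]
    have := Real.log_le_sub_one_of_pos (x := 2) (by norm_num)
    linarith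
  have hnat : ∀ {P : ℝ → Prop}, (∀ᶠ u : ℝ in atTop, P u) →
      ∀ᶠ n : ℕ in atTop, ∀ u : ℝ, (n : ℝ) < u → P u := by
    intro P hP
    obtain ⟨A, hA⟩ := eventually_atTop.1 hP
    filter_upwards [eventually_ge_atTop ⌈A⌉₊] with n hn u hu
    refine hA u ?_
    have h1 := Nat.le_ceil A
    have h2 : ((⌈A⌉₊ : ℕ) : ℝ) ≤ n := by exact_mod_cast hn
    linarith
  constructor
  · intro hz ε hε
    have hne : ∀ s : ℂ, θ + ε / 8 < s.re → F (1 + s) ≠ 0 := fun s hs => hz _ (by
      rw [Complex.add_re, Complex.one_re]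
      linarith)
    have hx₁ : 0 < θ + ε / 8 := by linarith
    have hx : θ + ε / 8 < θ + ε / 4 := by linarith
    obtain ⟨q, hq⟩ := sq_shift Q hx₁ hx hne
    obtain ⟨K, hK, hb⟩ := sh_point D (hx₁.trans hx) hq
    set h : ℝ → ℝ := fun u => Sh lam (cx lam c (θ + ε / 4)) u - q with hh
    have D' : Dat lam (cx lam c (θ + ε / 4)) _ _ := dat_cx D (hx₁.trans hx).le
    have hhm : Measurable h := (sh_meas D').sub_const q
    set I : ℝ := ∫ u in Ioi (1 : ℝ), h u ^ 2 with hI
    have hI0 : 0 ≤ I := integral_nonneg fun u => sq_nonneg _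
    -- the set where `h` is large
    have hthin : Thin {u | Real.exp (ε / 8 * u) < |h u|} (ε / 8) := by
      have hbig : ∀ᶠ n : ℕ in atTop, I ≤ Real.exp (ε / 8 * n) := by
        have h1 : Tendsto (fun n : ℕ => Real.exp (ε / 8 * n)) atTop atTop :=
          Real.tendsto_exp_atTop.comp (tendsto_natCast_atTop_atTop.const_mul_atTop (by linarith))
        exact h1.eventually_ge_atTop _
      filter_upwards [hbig, eventually_ge_atTop 1] with n h1 h2
      have hn1 : (1 : ℝ) ≤ n := by exact_mod_cast h2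
      set B : Set ℝ := {u | Real.exp (ε / 8 * u) < |h u|} ∩ Ioc (n : ℝ) (n + 1) with hB
      have hBm : MeasurableSet B :=
        (measurableSet_lt (by fun_prop) hhm.abs).inter measurableSet_Ioc
      have hBf : volume B < ⊤ := lt_of_le_of_lt (measure_mono inter_subset_right) (by simp)
      have hBi : B ⊆ Ioi 1 := fun u hu => lt_of_le_of_lt hn1 hu.2.1
      have e1 : (volume B).toReal * Real.exp (ε / 8 * n) ^ 2 ≤ I := by
        calc (volume B).toReal * Real.exp (ε / 8 * n) ^ 2 = ∫ _ in B, Real.exp (ε / 8 * n) ^ 2 := by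
              rw [setIntegral_const, smul_eq_mul]
              rfl
          _ ≤ ∫ u in B, h u ^ 2 := by
              refine setIntegral_mono_on (integrableOn_const hBf.ne) (hq.mono_set hBi) hBm
                fun u hu => ?_
              rw [← sq_abs (h u)]
              refine pow_le_pow_left₀ (Real.exp_pos _).le (le_trans (Real.exp_le_exp.2 ?_)
                (le_of_lt hu.1)) 2
              exact mul_le_mul_of_nonneg_left hu.2.1.le (by linarith)
          _ ≤ I := setIntegral_mono_set hq (Eventually.of_forall fun u => sq_nonneg _)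
              hBi.eventuallyLE
      have hw := Real.exp_pos (ε / 8 * n)
      rw [← ENNReal.ofReal_toReal hBf.ne]
      refine ENNReal.ofReal_le_ofReal ?_
      rw [Real.exp_neg, ← one_div, le_div_iff₀ hw]
      have e2 : (volume B).toReal * Real.exp (ε / 8 * n) * Real.exp (ε / 8 * n) ≤
          1 * Real.exp (ε / 8 * n) := by
        rw [one_mul]
        calc _ = (volume B).toReal * Real.exp (ε / 8 * n) ^ 2 := by ring
          _ ≤ _ := e1.trans h1
      exact le_of_mul_le_mul_right e2 hw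
    refine few_of_thin (l := ε / 8) (by linarith) (hthin.mono ?_)
    have hbig : ∀ᶠ u : ℝ in atTop, K * Real.exp ((θ + ε / 4) * u) * (1 + Real.exp (ε / 8 * u)) + 1 ≤
        (Real.exp u / 2) ^ (θ + ε) := by
      have h1 : Tendsto (fun u : ℝ => Real.exp (ε / 2 * u)) atTop atTop :=
        Real.tendsto_exp_atTop.comp (tendsto_id.const_mul_atTop (by linarith))
      filter_upwards [h1.eventually_ge_atTop ((2 * K + 1) * 2 ^ (θ + ε)), eventually_ge_atTop 0]
        with u h2 h3
      have e1 : (Real.exp u / 2) ^ (θ + ε) = Real.exp ((θ + ε) * u) / 2 ^ (θ + ε) := by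
        rw [Real.div_rpow (Real.exp_pos _).le (by norm_num), ← Real.exp_mul]
        congr 2
        ring
      have hp : (0 : ℝ) < 2 ^ (θ + ε) := by positivity
      rw [e1, le_div_iff₀ hp]
      have e2 : 1 ≤ Real.exp (ε / 8 * u) := Real.one_le_exp (by positivity)
      have e3 : 1 ≤ Real.exp ((θ + ε / 4) * u) := Real.one_le_exp (by positivity)
      have e4 : Real.exp ((θ + ε / 4) * u) * Real.exp (ε / 8 * u) ≤ Real.exp ((θ + ε / 2) * u) := by
        rw [← Real.exp_add]
        apply Real.exp_le_exp.2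
        nlinarith
      have e5 : Real.exp ((θ + ε) * u) = Real.exp ((θ + ε / 2) * u) * Real.exp (ε / 2 * u) := by
        rw [← Real.exp_add]
        congr 1
        ring
      have e6 : 1 ≤ Real.exp ((θ + ε / 4) * u) * Real.exp (ε / 8 * u) := one_le_mul_of_one_le_of_one_le e3 e2
      have e7 : K * Real.exp ((θ + ε / 4) * u) * (1 + Real.exp (ε / 8 * u)) + 1 ≤
          (2 * K + 1) * Real.exp ((θ + ε / 2) * u) := by
        calc K * Real.exp ((θ + ε / 4) * u) * (1 + Real.exp (ε / 8 * u)) + 1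
            ≤ K * Real.exp ((θ + ε / 4) * u) * (Real.exp (ε / 8 * u) + Real.exp (ε / 8 * u)) + 1 := by
              gcongr
          _ = 2 * K * (Real.exp ((θ + ε / 4) * u) * Real.exp (ε / 8 * u)) + 1 := by ring
          _ ≤ 2 * K * Real.exp ((θ + ε / 2) * u) + Real.exp ((θ + ε / 2) * u) := by
              gcongr
              exact e6.trans e4
          _ = _ := by ring
      calc _ ≤ (2 * K + 1) * Real.exp ((θ + ε / 2) * u) * 2 ^ (θ + ε) :=
            mul_le_mul_of_nonneg_right e7 hp.le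
        _ = Real.exp ((θ + ε / 2) * u) * ((2 * K + 1) * 2 ^ (θ + ε)) := by ring
        _ ≤ Real.exp ((θ + ε / 2) * u) * Real.exp (ε / 2 * u) :=
            mul_le_mul_of_nonneg_left h2 (Real.exp_pos _).le
        _ = _ := e5.symm
    filter_upwards [hnat hclose, hnat hbig, eventually_ge_atTop 2] with n h1 h2 h3
    rintro u ⟨hu, hu1, -⟩
    have hn2 : (2 : ℝ) ≤ n := by exact_mod_cast h3
    obtain ⟨f1, f2, f3, -⟩ := floor_facts (by linarith : 2 ≤ u)
    have g1 := h1 u hu1
    have g2 := h2 u hu1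
    have hS : ((⌊Real.exp u⌋₊ : ℕ) : ℝ) ^ (θ + ε) <
        |Real.log (bsdProduct a b ((⌊Real.exp u⌋₊ : ℕ) : ℝ))| := hu
    rw [← product_floor] at hS
    have g3 := hb u (by linarith)
    show Real.exp (ε / 8 * u) < |h u|
    by_contra hcon
    have hcon' : |h u| ≤ Real.exp (ε / 8 * u) := not_lt.1 hcon
    have g4 : |Real.log (bsdProduct a b (Real.exp u))| ≤ |Sh lam c u| + 1 := by
      have := abs_sub_abs_le_abs_sub (Real.log (bsdProduct a b (Real.exp u))) (Sh lam c u)
      rw [abs_sub_comm] at this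
      linarith
    have g5 : K * Real.exp ((θ + ε / 4) * u) * (1 + |h u|) ≤
        K * Real.exp ((θ + ε / 4) * u) * (1 + Real.exp (ε / 8 * u)) := by gcongr
    have g6 : (Real.exp u / 2) ^ (θ + ε) ≤ ((⌊Real.exp u⌋₊ : ℕ) : ℝ) ^ (θ + ε) :=
      Real.rpow_le_rpow (by positivity) f3 (by linarith)
    linarith
  · intro h s hs
    -- approach `θ` by `θ + ε`
    set ε : ℝ := (s.re - 1 - θ) / 2 with hε
    have hε0 : 0 < ε := by rw [hε]; linarith
    obtain ⟨l, hl, hT⟩ := thin_of_few (h ε hε0)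
    have h1 := quasi Q hl (θ := θ + ε) (by linarith)
      (M := fun u => Real.exp ((θ + ε) * u) + 1) (by fun_prop) ?_ (hT.mono ?_)
    · have h2 := h1 (s - 1) (by rw [Complex.sub_re, Complex.one_re]; linarith)
      rwa [add_sub_cancel] at h2
    · intro x hx
      have i1 : IntegrableOn (fun u : ℝ => Real.exp ((θ + ε - x) * u)) (Ioi 0) :=
        integrableOn_exp_mul_Ioi (by linarith) 0
      have i2 : IntegrableOn (fun u : ℝ => Real.exp (-x * u)) (Ioi 0) :=
        integrableOn_exp_mul_Ioi (by linarith) 0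
      refine (i1.add i2).congr_fun (fun u _ => ?_) measurableSet_Ioi
      simp only [Pi.add_apply]
      rw [add_mul, one_mul, ← Real.exp_add]
      congr 2 <;> ring
    · filter_upwards [hnat hclose, eventually_ge_atTop 2] with n h1 h3
      rintro u ⟨hu, hu1, -⟩
      have hn2 : (2 : ℝ) ≤ n := by exact_mod_cast h3
      obtain ⟨f1, f2, f3, -⟩ := floor_facts (by linarith : 2 ≤ u)
      have g1 := h1 u hu1
      have g2 : Real.exp ((θ + ε) * u) + 1 < |Sh lam c u| := hu
      show ((⌊Real.exp u⌋₊ : ℕ) : ℝ) ^ (θ + ε) <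
        |Real.log (bsdProduct a b ((⌊Real.exp u⌋₊ : ℕ) : ℝ))|
      rw [← product_floor]
      have g3 : ((⌊Real.exp u⌋₊ : ℕ) : ℝ) ^ (θ + ε) ≤ Real.exp ((θ + ε) * u) := by
        calc ((⌊Real.exp u⌋₊ : ℕ) : ℝ) ^ (θ + ε) ≤ Real.exp u ^ (θ + ε) :=
              Real.rpow_le_rpow (by positivity) f2 (by linarith)
          _ = _ := by
            rw [← Real.exp_mul]
            congr 1
            ring
      have g4 := abs_sub_abs_le_abs_sub (Sh lam c u) (Real.log (bsdProduct a b (Real.exp u)))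
      linarith

/-- **Goldfeld's theorem with exceptions** -/
theorem curve_lead (hΔ : 4 * a ^ 3 + 27 * b ^ 2 ≠ 0) (hF : IsLSeries a b F)
    (hrs : Tendsto (rsSum a b) atTop (𝓝 0)) {η C₀ : ℝ} {κ : ℕ} (hη : 0 < η)
    (hg : ∀ s : ℂ, 1 - η < s.re → ‖F s‖ ≤ C₀ * (1 + ‖s‖) ^ κ) {ρ A : ℝ} (hA : A ≠ 0)
    (h : ∀ ε : ℝ, 0 < ε → Few fun n => ε ≤ |bsdProduct a b n / Real.log n ^ ρ - A|) :
    0 < A ∧ (∀ s : ℂ, 1 < s.re → F s ≠ 0) ∧ ∃ m : ℕ, ρ = m ∧ analyticOrderAt F 1 = m ∧
      iteratedDeriv m F 1 / (m.factorial : ℂ) =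
        ((√2 * Real.exp (m * Real.eulerMascheroniConstant) / A : ℝ) : ℂ) := by
  have hlogpos : ∀ n : ℕ, 2 ≤ n → 0 < Real.log n := fun n hn => Real.log_pos (by exact_mod_cast hn)
  have hpos : ∀ n : ℕ, 2 ≤ n → 0 < bsdProduct a b n / Real.log n ^ ρ := fun n hn =>
    div_pos (bsdProduct_pos _) (Real.rpow_pos_of_pos (hlogpos n hn) _)
  have hA0 : 0 < A := by
    rcases lt_or_gt_of_ne hA with h1 | h1
    · exfalso
      refine not_few_of_all ?_ (h (-A) (by linarith))
      filter_upwards [eventually_ge_atTop 2] with n hn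
      have h2 := hpos n hn
      rw [abs_of_pos (by linarith)]
      linarith
    · exact h1
  refine ⟨hA0, ?_⟩
  have H := curve_mc hF hη hg
  obtain ⟨e, g, p, he, Q⟩ := H.cn
  set lam := lamS (nQ a b) e with hlam
  set c := cS' (nQ a b) (alQ a b) e with hc
  have hlim := sh_product hΔ hrs he
  rw [← hlam, ← hc] at hlim
  have hnat : ∀ {P : ℝ → Prop}, (∀ᶠ u : ℝ in atTop, P u) →
      ∀ᶠ n : ℕ in atTop, ∀ u : ℝ, (n : ℝ) < u → P u := by
    intro P hP
    obtain ⟨A, hA⟩ := eventually_atTop.1 hP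
    filter_upwards [eventually_ge_atTop ⌈A⌉₊] with n hn u hu
    refine hA u ?_
    have h1 := Nat.le_ceil A
    have h2 : ((⌈A⌉₊ : ℕ) : ℝ) ≤ n := by exact_mod_cast hn
    linarith
  have hlead := lead Q (r := ρ) (q := Real.log A - Real.log 2 / 2) ?_
  · obtain ⟨h1, h2, h3⟩ := hlead
    have hp : ρ = p := by
      have : (p : ℝ) = ((0 : ℕ) : ℝ) + ρ := h2
      rw [Nat.cast_zero, zero_add] at this
      exact this.symm
    have hAC : Real.exp (ρ * Real.eulerMascheroniConstant - (Real.log A - Real.log 2 / 2)) =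
        AC ρ A := by
      unfold AC
      rw [show ρ * Real.eulerMascheroniConstant - (Real.log A - Real.log 2 / 2) =
        Real.log 2 / 2 + ρ * Real.eulerMascheroniConstant - Real.log A by ring, Real.exp_sub,
        Real.exp_add, Real.exp_log hA0, ← log_sqrt_two, Real.exp_log (by positivity)]
    have hg0 : g 0 = ((AC ρ A : ℝ) : ℂ) := by rw [h3, hAC]
    have hT : Tendsto (fun s : ℂ => F (1 + s) / s ^ p) (𝓝[≠] 0) (𝓝 ((AC ρ A : ℝ) : ℂ)) := by
      have hgc : Tendsto g (𝓝[≠] 0) (𝓝 (g 0)) :=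
        Q.hg.continuousAt.tendsto.mono_left nhdsWithin_le_nhds
      rw [← hg0]
      refine hgc.congr' ?_
      filter_upwards [nhdsWithin_le_nhds Q.near, self_mem_nhdsWithin] with s h4 h5
      have h6 : s ≠ 0 := h5
      rw [h4]
      field_simp
    have h4 := (lim_iff hF (by exact_mod_cast (AC_pos (ρ := ρ) hA0).ne')).1 hT
    refine ⟨fun s hs => ?_, p, hp, h4.1, ?_⟩
    · have := h1 (s - 1) (by rw [Complex.sub_re, Complex.one_re]; linarith)
      rwa [add_sub_cancel] at this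
    · rw [h4.2]
      unfold AC
      rw [hp]
  · intro ε hε
    -- continuity of the logarithm at `A`
    have hcont : ∃ ε' : ℝ, 0 < ε' ∧ ∀ y : ℝ, |y - A| < ε' → |Real.log y - Real.log A| < ε / 3 := by
      have h1 := Metric.continuousAt_iff.1 (Real.continuousAt_log hA0.ne') (ε / 3) (by linarith)
      obtain ⟨d, hd, h2⟩ := h1
      refine ⟨d, hd, fun y hy => ?_⟩
      have := h2 (x := y) (by rwa [Real.dist_eq])
      rwa [Real.dist_eq] at this
    obtain ⟨ε', hε', hlogA⟩ := hcont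
    obtain ⟨l, hl, hT⟩ := thin_of_few (h ε' hε')
    refine ⟨l, hl, hT.mono ?_⟩
    have c1 : ∀ᶠ u : ℝ in atTop, |Sh lam c u - Real.log (bsdProduct a b (Real.exp u)) +
        Real.log 2 / 2| < ε / 3 := by
      have h1 := (Metric.tendsto_nhds.1 hlim) (ε / 3) (by linarith)
      filter_upwards [h1] with u hu
      rw [Real.dist_eq, sub_neg_eq_add] at hu
      exact hu
    have c2 : ∀ᶠ u : ℝ in atTop,
        |ρ * (Real.log u - Real.log (Real.log (⌊Real.exp u⌋₊ : ℕ)))| < ε / 3 := by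
      have h1 : Tendsto (fun u : ℝ => |ρ| * (4 * Real.exp (-u))) atTop (𝓝 0) := by
        have h2 : Tendsto (fun u : ℝ => Real.exp (-u)) atTop (𝓝 0) :=
          Real.tendsto_exp_atBot.comp tendsto_neg_atTop_atBot
        have h3 := (h2.const_mul 4).const_mul |ρ|
        simpa using h3
      filter_upwards [h1.eventually (gt_mem_nhds (by linarith : (0 : ℝ) < ε / 3)),
        eventually_ge_atTop 2] with u h2 h3
      obtain ⟨f1, f2, f3, f4⟩ := floor_facts h3
      refine lt_of_le_of_lt ?_ h2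
      rw [abs_mul]
      refine mul_le_mul_of_nonneg_left ?_ (abs_nonneg ρ)
      set v : ℝ := Real.log (⌊Real.exp u⌋₊ : ℕ) with hv
      have e1 : 2 * Real.exp (-u) ≤ 1 := by
        have h5 : Real.exp (-u) ≤ Real.exp (-1) := Real.exp_le_exp.2 (by linarith)
        have h6 : Real.exp (-1) < 1 / 2 := by
          rw [Real.exp_neg, inv_lt_comm₀ (Real.exp_pos _) (by norm_num)]
          have := Real.exp_one_gt_d9
          norm_num
          linarith
        linarith
      have f5 := abs_le.1 f4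
      have hv1 : 1 ≤ v := by linarith [f5.2]
      have hvu : v ≤ u := by
        rw [hv]
        have : Real.log (⌊Real.exp u⌋₊ : ℕ) ≤ Real.log (Real.exp u) :=
          Real.log_le_log (by linarith) f2
        rwa [Real.log_exp] at this
      rw [← Real.log_div (by linarith) (by linarith), abs_of_nonneg (Real.log_nonneg (by
        rw [le_div_iff₀ (by linarith)]
        linarith))]
      have h7 := Real.log_le_sub_one_of_pos (x := u / v) (by positivity)
      have h8 : u / v - 1 = (u - v) / v := by field_simp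
      have h9 : (u - v) / v ≤ u - v := div_le_self (by linarith) hv1
      have h10 : u - v ≤ 2 * Real.exp (-u) := by
        rw [abs_of_nonneg (by linarith)] at f4
        exact f4
      have := Real.exp_pos (-u)
      linarith
    filter_upwards [hnat c1, hnat c2, eventually_ge_atTop 2] with n h1 h2 h3
    rintro u ⟨hu, hu1, -⟩
    have hn2 : (2 : ℝ) ≤ n := by exact_mod_cast h3
    obtain ⟨f1, f2, f3, f4⟩ := floor_facts (by linarith : 2 ≤ u)
    have g1 := h1 u hu1
    have g2 := h2 u hu1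
    have hu' : ε < |Sh lam c u - ρ * Real.log u - (Real.log A - Real.log 2 / 2)| := hu
    show ε' ≤ |bsdProduct a b ((⌊Real.exp u⌋₊ : ℕ) : ℝ) / Real.log ((⌊Real.exp u⌋₊ : ℕ) : ℝ) ^ ρ - A|
    by_contra hcon
    have g3 := hlogA _ (not_le.1 hcon)
    set v : ℝ := Real.log (⌊Real.exp u⌋₊ : ℕ) with hv
    have hv0 : 0 < v := Real.log_pos f1
    rw [← product_floor, Real.log_div (bsdProduct_pos _).ne' (Real.rpow_pos_of_pos hv0 _).ne',
      Real.log_rpow hv0] at g3
    have e1 : Sh lam c u - ρ * Real.log u - (Real.log A - Real.log 2 / 2) =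
        (Sh lam c u - Real.log (bsdProduct a b (Real.exp u)) + Real.log 2 / 2) +
        (Real.log (bsdProduct a b (Real.exp u)) - ρ * Real.log v - Real.log A) +
        (-(ρ * (Real.log u - Real.log v))) := by ring
    rw [e1] at hu'
    have e2 := abs_add_le ((Sh lam c u - Real.log (bsdProduct a b (Real.exp u)) + Real.log 2 / 2) +
        (Real.log (bsdProduct a b (Real.exp u)) - ρ * Real.log v - Real.log A))
        (-(ρ * (Real.log u - Real.log v)))
    have e3 := abs_add_le (Sh lam c u - Real.log (bsdProduct a b (Real.exp u)) + Real.log 2 / 2)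
        (Real.log (bsdProduct a b (Real.exp u)) - ρ * Real.log v - Real.log A)
    rw [abs_neg] at e2
    linarith

end Pool.Agent.W5h26.ES
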