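import Pool.Agent.W5h26.ES.Main

/-!
# Sets of integers with a power saving, and thin sets
-/

set_option autoImplicit false

open MeasureTheory Filter Topology Set
open scoped ENNReal

namespace Pool.Agent.W5h26.ES

open Classical in
/-- `S` holds for at most `X ^ (1 - l)` of the integers `n` with `X ≤ n ≤ 2 X`, for some `l > 0` and
all large `X` -/
def Few (S : ℕ → Prop) : Prop :=
  ∃ l : ℝ, 0 < l ∧ ∀ᶠ X : ℕ in atTop,
    (((Finset.Icc X (2 * X)).filter S).card : ℝ) ≤ (X : ℝ) ^ (1 - l)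

/-- the set of the `u` with `S ⌊e^u⌋` -/
def US (S : ℕ → Prop) : Set ℝ := {u | S ⌊Real.exp u⌋₊}

lemma us_meas (S : ℕ → Prop) : MeasurableSet (US S) := by
  have h1 : Measurable fun u : ℝ => ⌊Real.exp u⌋₊ := Nat.measurable_floor.comp Real.measurable_exp
  exact h1 (MeasurableSet.of_discrete (s := {n : ℕ | S n}))

/-- the interval of the `u` with `⌊e^u⌋ = m` -/
lemma floor_exp {m : ℕ} (hm : 1 ≤ m) (u : ℝ) :
    ⌊Real.exp u⌋₊ = m ↔ Real.log m ≤ u ∧ u < Real.log (m + 1) := by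
  have hm0 : (0 : ℝ) < m := by exact_mod_cast hm
  rw [Nat.floor_eq_iff (Real.exp_pos u).le, Real.log_le_iff_le_exp hm0,
    Real.lt_log_iff_exp_lt (by positivity)]

lemma log_succ_sub {m : ℕ} (hm : 1 ≤ m) :
    1 / ((m : ℝ) + 1) ≤ Real.log (m + 1) - Real.log m ∧
      Real.log (m + 1) - Real.log m ≤ 1 / m := by
  have hm0 : (0 : ℝ) < m := by exact_mod_cast hm
  rw [← Real.log_div (by positivity) hm0.ne']
  constructor
  · have h1 := Real.one_sub_inv_le_log_of_pos (x := (m + 1) / m) (by positivity)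
    have h2 : 1 - ((m + 1) / (m : ℝ))⁻¹ = 1 / ((m : ℝ) + 1) := by
      field_simp
      ring
    linarith
  · have h1 := Real.log_le_sub_one_of_pos (x := (m + 1) / m) (by positivity)
    have h2 : (m + 1) / (m : ℝ) - 1 = 1 / m := by
      field_simp
      ring
    linarith

lemma vol_cell {m : ℕ} (hm : 1 ≤ m) :
    volume {u : ℝ | ⌊Real.exp u⌋₊ = m} =
      ENNReal.ofReal (Real.log (m + 1) - Real.log m) := by
  have h1 : {u : ℝ | ⌊Real.exp u⌋₊ = m} = Ico (Real.log m) (Real.log (m + 1)) := by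
    ext u
    exact floor_exp hm u
  rw [h1, Real.volume_Ico]

/-- **from integers to real numbers** -/
theorem thin_of_few {S : ℕ → Prop} (h : Few S) : ∃ l : ℝ, 0 < l ∧ Thin (US S) l := by
  classical
  obtain ⟨l₀, hl₀, hF₀⟩ := h
  -- without loss of generality `l ≤ 1`
  obtain ⟨l, hl, hl1, hF⟩ : ∃ l : ℝ, 0 < l ∧ l ≤ 1 ∧ ∀ᶠ X : ℕ in atTop,
      (((Finset.Icc X (2 * X)).filter S).card : ℝ) ≤ (X : ℝ) ^ (1 - l) := by
    refine ⟨min l₀ 1, lt_min hl₀ one_pos, min_le_right _ _, ?_⟩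
    filter_upwards [hF₀, eventually_ge_atTop 1] with X h1 h2
    have hX : (1 : ℝ) ≤ X := by exact_mod_cast h2
    have h3 : (X : ℝ) ^ (1 - l₀) ≤ (X : ℝ) ^ (1 - min l₀ 1) :=
      Real.rpow_le_rpow_of_exponent_le hX (by linarith [min_le_left l₀ 1])
    convert h1.trans h3
  refine ⟨l / 2, by linarith, ?_⟩
  have hfl : Tendsto (fun n : ℕ => ⌊Real.exp n⌋₊) atTop atTop :=
    tendsto_nat_floor_atTop.comp (Real.tendsto_exp_atTop.comp tendsto_natCast_atTop_atTop)
  have hfl2 : Tendsto (fun n : ℕ => 2 * ⌊Real.exp n⌋₊) atTop atTop :=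
    tendsto_atTop_mono (fun n => by omega) hfl
  have hsmall : ∀ᶠ n : ℕ in atTop, 3 * (2 : ℝ) ^ l ≤ Real.exp (l / 2 * n) := by
    have h1 : Tendsto (fun n : ℕ => Real.exp (l / 2 * n)) atTop atTop :=
      Real.tendsto_exp_atTop.comp (tendsto_natCast_atTop_atTop.const_mul_atTop (by linarith))
    exact h1.eventually_ge_atTop _
  filter_upwards [hfl.eventually hF, hfl2.eventually hF, hsmall, eventually_ge_atTop 2] with
    n h1 h2 h3 h4
  set X : ℕ := ⌊Real.exp n⌋₊ with hX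
  have hn2 : (2 : ℝ) ≤ n := by exact_mod_cast h4
  have he4 : (4 : ℝ) ≤ Real.exp n := by
    have e1 : Real.exp 2 ≤ Real.exp n := Real.exp_le_exp.2 hn2
    have e2 : Real.exp 2 = Real.exp 1 * Real.exp 1 := by rw [← Real.exp_add]; norm_num
    have e3 := Real.exp_one_gt_d9
    nlinarith
  have hX1 : (X : ℝ) ≤ Real.exp n := Nat.floor_le (Real.exp_pos _).le
  have hX2 : Real.exp n < X + 1 := Nat.lt_floor_add_one _
  have hX0 : (3 : ℝ) < X := by linarith
  have hXn : 1 ≤ X := by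
    have : (0 : ℝ) < X := by linarith
    exact_mod_cast this
  set T₁ := (Finset.Icc X (2 * X)).filter S
  set T₂ := (Finset.Icc (2 * X) (2 * (2 * X))).filter S
  have hsub : US S ∩ Ioc (n : ℝ) (n + 1) ⊆ ⋃ m ∈ T₁ ∪ T₂, {u : ℝ | ⌊Real.exp u⌋₊ = m} := by
    rintro u ⟨hu, hu1, hu2⟩
    have e1 : X ≤ ⌊Real.exp u⌋₊ := Nat.floor_le_floor (Real.exp_le_exp.2 hu1.le)
    have e2 : ⌊Real.exp u⌋₊ ≤ 2 * (2 * X) := by
      have e3 : (⌊Real.exp u⌋₊ : ℝ) ≤ Real.exp u := Nat.floor_le (Real.exp_pos _).le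
      have e4 : Real.exp u ≤ Real.exp n * Real.exp 1 := by
        rw [← Real.exp_add]
        exact Real.exp_le_exp.2 hu2
      have e5 := Real.exp_one_lt_d9
      have e6 : (⌊Real.exp u⌋₊ : ℝ) ≤ ((2 * (2 * X) : ℕ) : ℝ) := by
        push_cast
        nlinarith
      exact_mod_cast e6
    simp only [mem_iUnion]
    refine ⟨⌊Real.exp u⌋₊, ?_, rfl⟩
    rw [Finset.mem_union]
    by_cases h5 : ⌊Real.exp u⌋₊ ≤ 2 * X
    · exact Or.inl (Finset.mem_filter.2 ⟨Finset.mem_Icc.2 ⟨e1, h5⟩, hu⟩)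
    · exact Or.inr (Finset.mem_filter.2 ⟨Finset.mem_Icc.2 ⟨by omega, e2⟩, hu⟩)
  have hcell : ∀ m ∈ T₁ ∪ T₂, volume {u : ℝ | ⌊Real.exp u⌋₊ = m} ≤ ENNReal.ofReal (1 / X) := by
    intro m hm
    have hmX : X ≤ m := by
      rcases Finset.mem_union.1 hm with h | h
      · exact (Finset.mem_Icc.1 (Finset.mem_filter.1 h).1).1
      · have := (Finset.mem_Icc.1 (Finset.mem_filter.1 h).1).1
        omega
    rw [vol_cell (hXn.trans hmX)]
    refine ENNReal.ofReal_le_ofReal ((log_succ_sub (hXn.trans hmX)).2.trans ?_)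
    exact one_div_le_one_div_of_le (by linarith) (by exact_mod_cast hmX)
  have hcount : ((T₁ ∪ T₂).card : ℝ) ≤ 3 * (X : ℝ) ^ (1 - l) := by
    have e1 : ((T₁ ∪ T₂).card : ℝ) ≤ (T₁.card : ℝ) + T₂.card := by
      exact_mod_cast Finset.card_union_le T₁ T₂
    have e2 : ((2 * X : ℕ) : ℝ) ^ (1 - l) ≤ 2 * (X : ℝ) ^ (1 - l) := by
      push_cast
      rw [Real.mul_rpow (by norm_num) (Nat.cast_nonneg X)]
      refine mul_le_mul_of_nonneg_right ?_ (by positivity)
      calc (2 : ℝ) ^ (1 - l) ≤ 2 ^ (1 : ℝ) :=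
            Real.rpow_le_rpow_of_exponent_le (by norm_num) (by linarith)
        _ = 2 := Real.rpow_one 2
    linarith
  calc volume (US S ∩ Ioc (n : ℝ) (n + 1))
      ≤ volume (⋃ m ∈ T₁ ∪ T₂, {u : ℝ | ⌊Real.exp u⌋₊ = m}) := measure_mono hsub
    _ ≤ ∑ m ∈ T₁ ∪ T₂, volume {u : ℝ | ⌊Real.exp u⌋₊ = m} := measure_biUnion_finset_le _ _
    _ ≤ ∑ _m ∈ T₁ ∪ T₂, ENNReal.ofReal (1 / X) := Finset.sum_le_sum hcell
    _ = ENNReal.ofReal ((T₁ ∪ T₂).card * (1 / X)) := by
        rw [Finset.sum_const, nsmul_eq_mul, ENNReal.ofReal_mul (by positivity),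
          ENNReal.ofReal_natCast]
    _ ≤ ENNReal.ofReal (Real.exp (-(l / 2 * n))) := by
        refine ENNReal.ofReal_le_ofReal ?_
        have e1 : (X : ℝ) ^ (1 - l) * (1 / X) = (X : ℝ) ^ (-l) := by
          rw [Real.rpow_sub (by linarith), Real.rpow_one, Real.rpow_neg (by linarith)]
          field_simp
        have e2 : (X : ℝ) ^ (-l) ≤ (Real.exp n / 2) ^ (-l) :=
          Real.rpow_le_rpow_of_nonpos (by positivity) (by linarith) (by linarith)
        have e3 : (Real.exp n / 2) ^ (-l) = Real.exp (-(l * n)) * 2 ^ l := by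
          rw [Real.div_rpow (Real.exp_pos _).le (by norm_num), ← Real.exp_mul,
            Real.rpow_neg (by norm_num : (0 : ℝ) ≤ 2), div_inv_eq_mul]
          congr 2
          ring
        calc ((T₁ ∪ T₂).card : ℝ) * (1 / X) ≤ 3 * (X : ℝ) ^ (1 - l) * (1 / X) := by gcongr
          _ = 3 * (X : ℝ) ^ (-l) := by rw [mul_assoc, e1]
          _ ≤ 3 * (Real.exp (-(l * n)) * 2 ^ l) := by
              rw [← e3]
              linarith
          _ = (3 * 2 ^ l) * Real.exp (-(l * n)) := by ring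
          _ ≤ Real.exp (l / 2 * n) * Real.exp (-(l * n)) :=
              mul_le_mul_of_nonneg_right h3 (Real.exp_pos _).le
          _ = Real.exp (-(l / 2 * n)) := by
              rw [← Real.exp_add]
              congr 1
              ring

/-- **from real numbers to integers** -/
theorem few_of_thin {S : ℕ → Prop} {l : ℝ} (hl : 0 < l) (h : Thin (US S) l) : Few S := by
  classical
  refine ⟨l / 2, by linarith, ?_⟩
  obtain ⟨n₁, hn₁⟩ := eventually_atTop.1 h
  have hlog : Tendsto (fun X : ℕ => ⌈Real.log X⌉₊ - 1) atTop atTop := by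
    have h1 : Tendsto (fun X : ℕ => ⌈Real.log X⌉₊) atTop atTop :=
      tendsto_nat_ceil_atTop.comp (Real.tendsto_log_atTop.comp tendsto_natCast_atTop_atTop)
    exact (tendsto_sub_atTop_nat 1).comp h1
  have hbig : ∀ᶠ X : ℕ in atTop, 9 * Real.exp l ≤ (X : ℝ) ^ (l / 2) := by
    have h1 : Tendsto (fun X : ℕ => (X : ℝ) ^ (l / 2)) atTop atTop :=
      (tendsto_rpow_atTop (by linarith)).comp tendsto_natCast_atTop_atTop
    exact h1.eventually_ge_atTop _
  filter_upwards [hlog.eventually_ge_atTop n₁, hbig, eventually_ge_atTop 3] with X h1 h2 h3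
  set n₀ : ℕ := ⌈Real.log X⌉₊ - 1 with hn₀
  have hX3 : (3 : ℝ) ≤ X := by exact_mod_cast h3
  have hX0 : (0 : ℝ) < X := by linarith
  have hlogX : 1 < Real.log X := by
    rw [Real.lt_log_iff_exp_lt hX0]
    have := Real.exp_one_lt_d9
    linarith
  have hc1 : 1 ≤ ⌈Real.log X⌉₊ := Nat.one_le_ceil_iff.2 (by linarith)
  have hn1 : (n₀ : ℝ) < Real.log X := by
    have e1 := Nat.ceil_lt_add_one (show 0 ≤ Real.log X by linarith)
    rw [hn₀, Nat.cast_sub hc1]
    push_cast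
    linarith
  have hn2 : Real.log X ≤ n₀ + 1 := by
    have e1 := Nat.le_ceil (Real.log X)
    rw [hn₀, Nat.cast_sub hc1]
    push_cast
    linarith
  set T := (Finset.Icc X (2 * X)).filter S with hT
  have hTX : ∀ m ∈ T, X ≤ m ∧ m ≤ 2 * X ∧ S m := fun m hm => by
    obtain ⟨e1, e2⟩ := Finset.mem_filter.1 hm
    exact ⟨(Finset.mem_Icc.1 e1).1, (Finset.mem_Icc.1 e1).2, e2⟩
  have hsub : (⋃ m ∈ T, {u : ℝ | ⌊Real.exp u⌋₊ = m}) ⊆
      (US S ∩ Ioc (n₀ : ℝ) (n₀ + 1)) ∪ ((US S ∩ Ioc ((n₀ + 1 : ℕ) : ℝ) ((n₀ + 1 : ℕ) + 1)) ∪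
        (US S ∩ Ioc ((n₀ + 2 : ℕ) : ℝ) ((n₀ + 2 : ℕ) + 1))) := by
    intro u hu
    simp only [mem_iUnion] at hu
    obtain ⟨m, hm, hum⟩ := hu
    obtain ⟨e1, e2, e3⟩ := hTX m hm
    have hus : u ∈ US S := by
      show S ⌊Real.exp u⌋₊
      rw [show ⌊Real.exp u⌋₊ = m from hum]
      exact e3
    obtain ⟨e4, e5⟩ := (floor_exp (by omega) u).1 hum
    have e6 : Real.log X ≤ Real.log m := Real.log_le_log hX0 (by exact_mod_cast e1)
    have e7 : Real.log ((m : ℝ) + 1) ≤ Real.log X + 2 := by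
      have e8 : ((m : ℝ) + 1) ≤ 3 * X := by
        have : (m : ℝ) ≤ 2 * X := by exact_mod_cast e2
        linarith
      have e9 : Real.log ((m : ℝ) + 1) ≤ Real.log (3 * X) := Real.log_le_log (by positivity) e8
      rw [Real.log_mul (by norm_num) hX0.ne'] at e9
      have e10 : Real.log 3 ≤ 2 := by
        have := Real.log_le_sub_one_of_pos (x := 3) (by norm_num)
        linarith
      linarith
    rcases le_or_gt u (n₀ + 1) with h4 | h4
    · exact Or.inl ⟨hus, by linarith, h4⟩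
    · rcases le_or_gt u ((n₀ : ℝ) + 2) with h5 | h5
      · exact Or.inr (Or.inl ⟨hus, by push_cast; linarith, by push_cast; linarith⟩)
      · exact Or.inr (Or.inr ⟨hus, by push_cast; linarith, by push_cast; linarith⟩)
  have hmeas : ∀ m ∈ T, MeasurableSet {u : ℝ | ⌊Real.exp u⌋₊ = m} := fun m _ => by
    have h1 : Measurable fun u : ℝ => ⌊Real.exp u⌋₊ := Nat.measurable_floor.comp Real.measurable_exp
    exact h1 (MeasurableSet.of_discrete (s := {m}))
  have hdisj : Set.PairwiseDisjoint (T : Set ℕ) fun m => {u : ℝ | ⌊Real.exp u⌋₊ = m} := by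
    intro m _ m' _ hmm
    rw [Function.onFun, Set.disjoint_left]
    intro u h4 h5
    exact hmm ((show ⌊Real.exp u⌋₊ = m from h4).symm.trans h5)
  have hvol : ENNReal.ofReal (T.card * (1 / (3 * X))) ≤
      volume (⋃ m ∈ T, {u : ℝ | ⌊Real.exp u⌋₊ = m}) := by
    rw [measure_biUnion_finset hdisj hmeas]
    calc ENNReal.ofReal (T.card * (1 / (3 * X))) = ∑ _m ∈ T, ENNReal.ofReal (1 / (3 * X)) := by
          rw [Finset.sum_const, nsmul_eq_mul, ENNReal.ofReal_mul (by positivity),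
            ENNReal.ofReal_natCast]
      _ ≤ _ := by
        refine Finset.sum_le_sum fun m hm => ?_
        obtain ⟨e1, e2, -⟩ := hTX m hm
        rw [vol_cell (by omega)]
        refine ENNReal.ofReal_le_ofReal (le_trans ?_ (log_succ_sub (m := m) (by omega)).1)
        have : (m : ℝ) ≤ 2 * X := by exact_mod_cast e2
        exact one_div_le_one_div_of_le (by positivity) (by linarith)
  have hup : volume (⋃ m ∈ T, {u : ℝ | ⌊Real.exp u⌋₊ = m}) ≤
      ENNReal.ofReal (3 * Real.exp (-(l * n₀))) := by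
    have hj : ∀ j : ℕ, volume (US S ∩ Ioc ((n₀ + j : ℕ) : ℝ) ((n₀ + j : ℕ) + 1)) ≤
        ENNReal.ofReal (Real.exp (-(l * n₀))) := by
      intro j
      refine (hn₁ (n₀ + j) (by omega)).trans (ENNReal.ofReal_le_ofReal (Real.exp_le_exp.2 ?_))
      push_cast
      have : 0 ≤ l * j := by positivity
      nlinarith
    have h0 := hj 0
    rw [add_zero] at h0
    have hpos : (0 : ℝ) ≤ Real.exp (-(l * n₀)) := (Real.exp_pos _).le
    calc volume (⋃ m ∈ T, {u : ℝ | ⌊Real.exp u⌋₊ = m}) ≤ _ := measure_mono hsub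
      _ ≤ ENNReal.ofReal (Real.exp (-(l * n₀))) + (ENNReal.ofReal (Real.exp (-(l * n₀))) +
            ENNReal.ofReal (Real.exp (-(l * n₀)))) :=
          (measure_union_le _ _).trans (add_le_add h0 ((measure_union_le _ _).trans
            (add_le_add (hj 1) (hj 2))))
      _ = _ := by
        rw [← ENNReal.ofReal_add hpos hpos, ← ENNReal.ofReal_add hpos (by positivity)]
        congr 1
        ring
  have hcard : (T.card : ℝ) * (1 / (3 * X)) ≤ 3 * Real.exp (-(l * n₀)) :=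
    (ENNReal.ofReal_le_ofReal_iff (by positivity)).1 (hvol.trans hup)
  have e1 : Real.exp (-(l * n₀)) ≤ Real.exp l * (X : ℝ) ^ (-l) := by
    rw [Real.rpow_def_of_pos hX0, ← Real.exp_add]
    apply Real.exp_le_exp.2
    have := mul_le_mul_of_nonneg_left hn2 hl.le
    linarith
  have e2 : (T.card : ℝ) ≤ 9 * Real.exp l * ((X : ℝ) ^ (-l) * X) := by
    have e3 : (T.card : ℝ) = (T.card : ℝ) * (1 / (3 * X)) * (3 * X) := by field_simp
    rw [e3]
    have e4 : (T.card : ℝ) * (1 / (3 * X)) ≤ 3 * (Real.exp l * (X : ℝ) ^ (-l)) :=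
      hcard.trans (mul_le_mul_of_nonneg_left e1 (by norm_num))
    calc (T.card : ℝ) * (1 / (3 * X)) * (3 * X) ≤ 3 * (Real.exp l * (X : ℝ) ^ (-l)) * (3 * X) :=
          mul_le_mul_of_nonneg_right e4 (by positivity)
      _ = _ := by ring
  have e3 : (X : ℝ) ^ (1 - l / 2) = (X : ℝ) ^ (l / 2) * ((X : ℝ) ^ (-l) * X) := by
    rw [← Real.rpow_add_one hX0.ne', ← Real.rpow_add hX0]
    congr 1
    ring
  rw [e3]
  exact e2.trans (mul_le_mul_of_nonneg_right h2 (by positivity))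

end Pool.Agent.W5h26.ES
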