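import Pool.Agent.W5h26.ES.Thin

/-!
# Zeros, order and leading coefficient from the partial sums outside thin sets
-/

set_option autoImplicit false

open MeasureTheory Filter Topology Set Complex
open scoped ENNReal
open Pool.Agent.TH942.LS (Dat)
open Pool.Agent.TH942.SL
open Pool.Agent.W263.BSD (LInt lap lapC lapC_ofReal lapC_differentiableAt)
open Pool.Agent.TH270.MS

namespace Pool.Agent.W5h26.ES

variable {lam c : ℕ → ℝ} {δ σ : ℝ} {G₀ g : ℂ → ℂ} {k p κ : ℕ} {η C : ℝ}

/-- **one step to the left** -/
theorem one_step (E : Cn lam c δ σ G₀ g k p κ η C) {x₁ l θ : ℝ} (hx₁ : 0 < x₁) (hl : 0 < l)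
    (hθ : 0 ≤ θ) (hne : ∀ s : ℂ, x₁ < s.re → G₀ s ≠ 0) {M : ℝ → ℝ} (hM : Measurable M)
    (hMi : ∀ x : ℝ, θ < x → IntegrableOn (fun u => M u * Real.exp (-(x * u))) (Ioi 0))
    (hT : Thin {u | M u < |Sh lam c u|} l) :
    ∀ s : ℂ, max θ (x₁ - l / 2) < s.re → G₀ s ≠ 0 := by
  have D := E.D
  set B : Set ℝ := {u | M u < |Sh lam c u|} with hB
  have hBm : MeasurableSet B := measurableSet_lt hM (sh_meas D).abs
  refine nonvanish D (hθ.trans (le_max_left _ _)) (fun s hs => E.hG s (by linarith [E.hη]))
    (fun s hs => E.hexp s hs) fun y hy => ?_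
  have hy1 : θ < y := (le_max_left _ _).trans_lt hy
  have hy2 : x₁ - l / 2 < y := (le_max_right _ _).trans_lt hy
  have i1 := step E hx₁ hl hne hBm hT hy2
  have i2 : IntegrableOn (fun u => Sh lam c u * Real.exp (-(y * u))) (Bᶜ ∩ Ioi 0) := by
    refine Integrable.mono' ((hMi y hy1).mono_set inter_subset_right)
      ((sh_meas D).mul (by fun_prop)).aestronglyMeasurable ?_
    filter_upwards [ae_restrict_mem (hBm.compl.inter measurableSet_Ioi)] with u hu
    rw [norm_mul, Real.norm_of_nonneg (Real.exp_pos _).le]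
    refine mul_le_mul_of_nonneg_right ?_ (Real.exp_pos _).le
    have h1 : ¬ M u < |Sh lam c u| := hu.1
    rw [Real.norm_eq_abs]
    exact not_lt.1 h1
  refine (i1.union i2).mono_set fun u hu => ?_
  by_cases h : u ∈ B
  · exact Or.inl ⟨h, hu⟩
  · exact Or.inr ⟨h, hu⟩

/-- **No zeros to the right of `θ`** if the partial sums are at most `M`, a function of exponential
type `θ`, outside an exponentially thin set. -/
theorem quasi (E : Cn lam c δ σ G₀ g k p κ η C) {l θ : ℝ} (hl : 0 < l)
    (hθ : 0 ≤ θ) {M : ℝ → ℝ} (hM : Measurable M)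
    (hMi : ∀ x : ℝ, θ < x → IntegrableOn (fun u => M u * Real.exp (-(x * u))) (Ioi 0))
    (hT : Thin {u | M u < |Sh lam c u|} l) :
    ∀ s : ℂ, θ < s.re → G₀ s ≠ 0 := by
  have D := E.D
  have key : ∀ n : ℕ, ∀ s : ℂ, max θ (σ - n * (l / 2)) < s.re → G₀ s ≠ 0 := by
    intro n
    induction n with
    | zero =>
      intro s hs
      have hs1 : σ < s.re := by
        have := (le_max_right θ (σ - (0 : ℕ) * (l / 2))).trans_lt hs
        simpa using this
      rw [← E.hexp s hs1]
      have hs2 : s ≠ 0 := by
        rintro rfl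
        rw [Complex.zero_re] at hs1
        linarith [D.σ0]
      exact mul_ne_zero (pow_ne_zero _ hs2) (Complex.exp_ne_zero _)
    | succ n ih =>
      intro s hs
      rcases (hθ.trans (le_max_left θ (σ - n * (l / 2)))).eq_or_lt with h0 | h0
      · refine ih s ?_
        rw [← h0]
        exact lt_of_le_of_lt (hθ.trans (le_max_left _ _)) hs
      · refine one_step E h0 hl hθ ih hM hMi hT s (lt_of_le_of_lt ?_ hs)
        push_cast
        refine max_le (le_max_left _ _) ?_
        rcases max_cases θ (σ - n * (l / 2)) with ⟨h1, -⟩ | ⟨h1, -⟩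
        · rw [h1]
          exact le_trans (by linarith) (le_max_left _ _)
        · rw [h1]
          exact le_trans (by linarith) (le_max_right _ _)
  obtain ⟨n, hn⟩ := exists_nat_ge (σ / (l / 2))
  intro s hs
  refine key n s ?_
  rw [div_le_iff₀ (by linarith)] at hn
  rw [max_eq_left (by linarith)]
  exact hs

lemma log_le_self' {u : ℝ} (hu : 1 ≤ u) : |Real.log u| ≤ u := by
  rw [abs_of_nonneg (Real.log_nonneg hu)]
  have := Real.log_le_sub_one_of_pos (by linarith : 0 < u)
  linarith

/-- **Order and leading coefficient** from the asymptotic formula outside thin sets -/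
theorem lead (E : Cn lam c δ σ G₀ g k p κ η C) {r q : ℝ}
    (h : ∀ ε : ℝ, 0 < ε → ∃ l : ℝ, 0 < l ∧ Thin {u | ε < |Sh lam c u - r * Real.log u - q|} l) :
    (∀ s : ℂ, 0 < s.re → G₀ s ≠ 0) ∧ (p : ℝ) = k + r ∧
      g 0 = Real.exp (r * Real.eulerMascheroniConstant - q) := by
  have D := E.D
  set f : ℝ → ℝ := fun u => Sh lam c u - r * Real.log u - q with hf
  have hfm : Measurable f := ferr_meas D r q
  -- no zeros
  have hne : ∀ s : ℂ, 0 < s.re → G₀ s ≠ 0 := by
    obtain ⟨l, hl, hT⟩ := h 1 one_pos
    refine quasi E hl le_rfl (M := fun u => 1 + |q| + |r| * |u|) (by fun_prop) ?_ (hT.mono ?_)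
    · intro x hx
      have i1 : IntegrableOn (fun u : ℝ => (1 + |q|) * Real.exp (-x * u)) (Ioi 0) :=
        (integrableOn_exp_mul_Ioi (by linarith) 0).const_mul _
      have i2 : IntegrableOn (fun u : ℝ => |r| * (2 / x * Real.exp (-(x / 2) * u))) (Ioi 0) :=
        ((integrableOn_exp_mul_Ioi (by linarith) 0).const_mul _).const_mul _
      refine Integrable.mono' (i1.add i2) (by fun_prop) ?_
      filter_upwards [ae_restrict_mem measurableSet_Ioi] with u hu
      have hu0 : (0 : ℝ) < u := hu
      rw [Real.norm_of_nonneg (by positivity), abs_of_pos hu0]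
      simp only [Pi.add_apply]
      have e1 : u ≤ 2 / x * Real.exp (x / 2 * u) := by
        have := Real.add_one_le_exp (x / 2 * u)
        have h2 : 2 / x * (x / 2 * u) = u := by field_simp
        have h3 : 2 / x * (x / 2 * u) ≤ 2 / x * Real.exp (x / 2 * u) :=
          mul_le_mul_of_nonneg_left (by linarith) (by positivity)
        linarith
      have e2 : Real.exp (x / 2 * u) * Real.exp (-(x * u)) = Real.exp (-(x / 2) * u) := by
        rw [← Real.exp_add]
        congr 1
        ring
      have e3 : |r| * u * Real.exp (-(x * u)) ≤ |r| * (2 / x * Real.exp (-(x / 2) * u)) := by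
        rw [← e2]
        calc |r| * u * Real.exp (-(x * u)) ≤ |r| * (2 / x * Real.exp (x / 2 * u)) *
              Real.exp (-(x * u)) := by gcongr
          _ = _ := by ring
      have e4 : Real.exp (-(x * u)) = Real.exp (-x * u) := by
        congr 1
        ring
      calc (1 + |q| + |r| * u) * Real.exp (-(x * u)) =
          (1 + |q|) * Real.exp (-(x * u)) + |r| * u * Real.exp (-(x * u)) := by ring
        _ ≤ _ := by
          rw [e4] at e3 ⊢
          gcongr
    · filter_upwards [eventually_ge_atTop 1] with n hn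
      rintro u ⟨h1, h2, -⟩
      have hn1 : (1 : ℝ) ≤ n := by exact_mod_cast hn
      have hu1 : (1 : ℝ) ≤ u := by linarith
      have h3 : 1 + |q| + |r| * |u| < |Sh lam c u| := h1
      have h4 := log_le_self' hu1
      have h5 : |Sh lam c u| ≤ |f u| + (|r| * |Real.log u| + |q|) := by
        have h6 : Sh lam c u = f u + (r * Real.log u + q) := by rw [hf]; ring
        rw [h6, ← abs_mul]
        exact (abs_add_le _ _).trans (by gcongr; exact abs_add_le _ _)
      have h6 : |r| * |Real.log u| ≤ |r| * |u| :=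
        mul_le_mul_of_nonneg_left (h4.trans (le_abs_self u)) (abs_nonneg r)
      show 1 < |f u|
      linarith
  refine E.of_small ?_
  rw [Metric.tendsto_nhds]
  intro ε hε
  obtain ⟨l, hl, hT⟩ := h (ε / 2) (by linarith)
  set B : Set ℝ := {u | ε / 2 < |f u|} with hB
  have hBm : MeasurableSet B := measurableSet_lt measurable_const hfm.abs
  -- `f` is integrable over `B`
  have i1 : IntegrableOn (Sh lam c) (B ∩ Ioi 1) := by
    have h1 := step E (x₁ := l / 8) (l := l) (y := 0) (by linarith) hl
      (fun s hs => hne s (by linarith)) hBm hT (by linarith)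
    simp only [zero_mul, neg_zero, Real.exp_zero, mul_one] at h1
    exact h1.mono_set (inter_subset_inter_right B (Ioi_subset_Ioi zero_le_one))
  have i2 : IntegrableOn (fun u => r * Real.log u + q) (B ∩ Ioi 1) := by
    have h1 := ((thin_int hBm hT (β := l / 2) (by linarith)).mono_set
      (inter_subset_inter_right B (Ioi_subset_Ioi zero_le_one))).const_mul (|r| * (2 / l) + |q|)
    refine Integrable.mono' h1 ((Real.measurable_log.const_mul r).add_const q).aestronglyMeasurable ?_
    filter_upwards [ae_restrict_mem (hBm.inter measurableSet_Ioi)] with u hu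
    have hu1 : (1 : ℝ) < u := hu.2
    have h2 := log_le_self' hu1.le
    have h3 : u ≤ 2 / l * Real.exp (l / 2 * u) := by
      have := Real.add_one_le_exp (l / 2 * u)
      have h2 : 2 / l * (l / 2 * u) = u := by field_simp
      have h3 : 2 / l * (l / 2 * u) ≤ 2 / l * Real.exp (l / 2 * u) :=
        mul_le_mul_of_nonneg_left (by linarith) (by positivity)
      linarith
    have h4 : 1 ≤ Real.exp (l / 2 * u) := Real.one_le_exp (by positivity)
    rw [Real.norm_eq_abs]
    calc |r * Real.log u + q| ≤ |r| * |Real.log u| + |q| := by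
          rw [← abs_mul]
          exact abs_add_le _ _
      _ ≤ |r| * (2 / l * Real.exp (l / 2 * u)) + |q| * Real.exp (l / 2 * u) := by
          have h5 : |q| * 1 ≤ |q| * Real.exp (l / 2 * u) :=
            mul_le_mul_of_nonneg_left h4 (abs_nonneg q)
          have h6 : |r| * |Real.log u| ≤ |r| * (2 / l * Real.exp (l / 2 * u)) :=
            mul_le_mul_of_nonneg_left (h2.trans h3) (abs_nonneg r)
          linarith
      _ = _ := by ring
  have i3 : IntegrableOn (fun u => |f u|) (B ∩ Ioi 1) := by
    have h1 : IntegrableOn (fun u => |(Sh lam c - fun u => r * Real.log u + q) u|) (B ∩ Ioi 1) :=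
      (i1.sub i2).abs
    refine h1.congr_fun (fun u _ => ?_) (hBm.inter measurableSet_Ioi)
    simp only [hf, Pi.sub_apply]
    congr 1
    ring
  set C₁ : ℝ := ∫ u in B ∩ Ioi 1, |f u| with hC₁
  have hC₁0 : 0 ≤ C₁ := integral_nonneg fun u => abs_nonneg _
  have hlim : Tendsto (fun T : ℝ => C₁ / T) atTop (𝓝 0) := tendsto_const_nhds.div_atTop tendsto_id
  filter_upwards [hlim.eventually (gt_mem_nhds (half_pos hε)), eventually_ge_atTop 1] with T h2 h3
  have hT0 : 0 < T := by linarith
  have j1 : IntegrableOn (fun u => |f u|) (Ioc 1 T) := (ferr_loc D r q le_rfl).abs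
  have e1 : ∫ u in Ioc 1 T, |f u| ≤ C₁ + ε / 2 * T := by
    have e2 : ∫ u in Ioc 1 T, |f u| =
        (∫ u in Ioc 1 T ∩ B, |f u|) + ∫ u in Ioc 1 T ∩ Bᶜ, |f u| := by
      rw [← integral_inter_add_sdiff hBm j1]
      rfl
    rw [e2]
    refine add_le_add ?_ ?_
    · refine setIntegral_mono_set i3 (Eventually.of_forall fun u => abs_nonneg _) ?_
      refine LE.le.eventuallyLE ?_
      rintro u ⟨h4, h5⟩
      exact ⟨h5, h4.1⟩
    · calc ∫ u in Ioc 1 T ∩ Bᶜ, |f u| ≤ ∫ _ in Ioc 1 T ∩ Bᶜ, ε / 2 := by
            refine setIntegral_mono_on (j1.mono_set inter_subset_left) ?_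
              (measurableSet_Ioc.inter hBm.compl) fun u hu => ?_
            · exact integrableOn_const (lt_of_le_of_lt (measure_mono inter_subset_left)
                (by simp)).ne
            · have : ¬ ε / 2 < |f u| := hu.2
              exact not_lt.1 this
        _ = (volume (Ioc 1 T ∩ Bᶜ)).toReal * (ε / 2) := by
            rw [setIntegral_const, smul_eq_mul]
            rfl
        _ ≤ T * (ε / 2) := by
            refine mul_le_mul_of_nonneg_right ?_ (by linarith)
            have h4 : volume (Ioc 1 T ∩ Bᶜ) ≤ volume (Ioc 1 T) := measure_mono inter_subset_left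
            have h5 := ENNReal.toReal_mono (by simp) h4
            rw [Real.volume_Ioc, ENNReal.toReal_ofReal (by linarith)] at h5
            linarith
        _ = _ := by ring
  have e0 : 0 ≤ ∫ u in (1 : ℝ)..T, |Sh lam c u - r * Real.log u - q| :=
    intervalIntegral.integral_nonneg h3 fun u _ => abs_nonneg _
  rw [Real.dist_eq, sub_zero, abs_of_nonneg (div_nonneg e0 hT0.le), div_lt_iff₀ hT0,
    intervalIntegral.integral_of_le h3]
  rw [div_lt_iff₀ hT0] at h2
  calc ∫ u in Ioc 1 T, |Sh lam c u - r * Real.log u - q| ≤ C₁ + ε / 2 * T := e1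
    _ < ε * T := by linarith

end Pool.Agent.W5h26.ES
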