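import Pool.Agent.TH270.MS.Main

/-!
# Zeros and Laplace integrals; the mean square to the right of all zeros
-/

set_option autoImplicit false

open MeasureTheory Filter Topology Set Complex
open scoped ENNReal
open Pool.Agent.TH942.LS (Dat)
open Pool.Agent.TH942.SL
open Pool.Agent.W263.BSD (LInt lap lapC lapC_ofReal lapC_differentiableAt)
open Pool.Agent.TH270.MS

namespace Pool.Agent.W5h26.ES

variable {lam c : ℕ → ℝ} {δ σ : ℝ}

/-- the deviation with `r = c₀ = 0` is the partial sum -/
lemma er_eq (lam c : ℕ → ℝ) (u : ℝ) : Er lam c 0 0 u = Sh lam c u := by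
  unfold Er
  have h : (Ioi (0 : ℝ)).indicator (fun _ => (0 : ℝ)) u = 0 := by
    by_cases hu : u ∈ Ioi (0 : ℝ)
    · rw [indicator_of_mem hu]
    · rw [indicator_of_notMem hu]
  rw [h]
  ring

/-- **convergence of the Laplace integral of the partial sums to the right of `x₀` excludes zeros
there** -/
theorem nonvanish {G₀ : ℂ → ℂ} {k : ℕ} (D : Dat lam c δ σ) {x₀ : ℝ} (hx₀ : 0 ≤ x₀)
    (hG : ∀ s : ℂ, 0 < s.re → DifferentiableAt ℂ G₀ s)
    (hexp : ∀ s : ℂ, σ < s.re → s ^ k * exp (-DD lam c s) = G₀ s)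
    (hint : ∀ x : ℝ, x₀ < x → LInt (Sh lam c) x) :
    ∀ s : ℂ, x₀ < s.re → G₀ s ≠ 0 := by
  have hσ := D.σ0
  set E : ℂ → ℂ := lapC (Sh lam c) with hE
  have hEd : ∀ s : ℂ, x₀ < s.re → DifferentiableAt ℂ E s := fun s hs =>
    lapC_differentiableAt (sh_meas D) (fun w hw => hint w hw) hs
  set Q : ℂ → ℂ := fun s => s ^ k * exp (-(s * E s)) with hQ
  have hQd : ∀ s : ℂ, x₀ < s.re → DifferentiableAt ℂ Q s := by
    intro s hs
    exact (differentiableAt_id.pow k).mul ((differentiableAt_id.mul (hEd s hs)).neg.cexp)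
  have hU : IsOpen {s : ℂ | x₀ < s.re} := isOpen_lt continuous_const Complex.continuous_re
  have hUc : Convex ℝ {s : ℂ | x₀ < s.re} := convex_halfSpace_re_gt x₀
  have a1 : AnalyticOnNhd ℂ G₀ {s : ℂ | x₀ < s.re} :=
    DifferentiableOn.analyticOnNhd (fun z hz =>
      (hG z (lt_of_le_of_lt hx₀ hz)).differentiableWithinAt) hU
  have a2 : AnalyticOnNhd ℂ Q {s : ℂ | x₀ < s.re} :=
    DifferentiableOn.analyticOnNhd (fun z hz => (hQd z hz).differentiableWithinAt) hU
  have hfar : ∀ s : ℂ, σ < s.re → G₀ s = Q s := by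
    intro s hs
    have hs0 : 0 < s.re := hσ.trans hs
    have hs1 : s ≠ 0 := by rintro rfl; simp at hs0
    rw [← hexp s hs, hQ]
    simp only
    congr 2
    have e1 : E s = ∫ u : ℝ, (Sh lam c u : ℂ) * exp (-(s * u)) := by
      rw [hE]
      unfold lapC
      refine setIntegral_eq_integral_of_forall_compl_eq_zero fun u hu => ?_
      rw [sh_zero D (by have : ¬ (0 : ℝ) < u := hu; linarith [D.δ0])]
      simp
    rw [e1, sh_lap D hs]
    field_simp
  set z₀ : ℝ := max σ x₀ + 1 with hz₀
  have hz : ((z₀ : ℝ) : ℂ) ∈ {s : ℂ | x₀ < s.re} := by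
    show x₀ < (((z₀ : ℝ) : ℂ)).re
    rw [Complex.ofReal_re]
    linarith [le_max_right σ x₀]
  have hEq := a1.eqOn_of_preconnected_of_eventuallyEq a2 hUc.isPreconnected hz (by
    have ho : IsOpen {s : ℂ | σ < s.re} := isOpen_lt continuous_const Complex.continuous_re
    filter_upwards [ho.mem_nhds (show σ < (((z₀ : ℝ) : ℂ)).re by
      rw [Complex.ofReal_re]; linarith [le_max_left σ x₀])] with s hs
    exact hfar s hs)
  intro s hs
  rw [hEq hs, hQ]
  have hs1 : s ≠ 0 := by
    rintro rfl
    rw [Complex.zero_re] at hs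
    linarith
  exact mul_ne_zero (pow_ne_zero _ hs1) (Complex.exp_ne_zero _)

/-- the coefficients of the shifted series -/
noncomputable def cx (lam c : ℕ → ℝ) (x : ℝ) (n : ℕ) : ℝ := c n * Real.exp (-(x * lam n))

lemma cx_abs_le (D : Dat lam c δ σ) {x : ℝ} (hx : 0 ≤ x) (n : ℕ) : |cx lam c x n| ≤ |c n| := by
  unfold cx
  rw [abs_mul, abs_of_pos (Real.exp_pos _)]
  have h1 : Real.exp (-(x * lam n)) ≤ 1 := by
    rw [Real.exp_le_one_iff]
    have := mul_nonneg hx (D.lam0 n).le
    linarith
  calc |c n| * Real.exp (-(x * lam n)) ≤ |c n| * 1 := mul_le_mul_of_nonneg_left h1 (abs_nonneg _)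
    _ = _ := mul_one _

lemma dat_cx (D : Dat lam c δ σ) {x : ℝ} (hx : 0 ≤ x) : Dat lam (cx lam c x) δ σ where
  δ0 := D.δ0
  σ0 := D.σ0
  lam_ge := D.lam_ge
  sum := Summable.of_nonneg_of_le (fun n => by positivity)
    (fun n => mul_le_mul_of_nonneg_right (cx_abs_le D hx n) (Real.exp_pos _).le) D.sum

lemma dd_cx (lam c : ℕ → ℝ) (x : ℝ) (s : ℂ) : DD lam (cx lam c x) s = DD lam c (s + x) := by
  unfold DD cx
  refine tsum_congr fun n => ?_
  push_cast
  rw [mul_assoc, ← Complex.exp_add]
  congr 2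
  ring

/-- the integral of the exponential function over `(l, u]` -/
lemma int_exp {x l u : ℝ} (hx : 0 < x) :
    ∫ v in l..u, Real.exp (x * v) = (Real.exp (x * u) - Real.exp (x * l)) / x := by
  rw [intervalIntegral.integral_comp_mul_left (fun v => Real.exp v) hx.ne', integral_exp, smul_eq_mul]
  field_simp

/-- **partial summation** -/
theorem abel (D : Dat lam c δ σ) {x : ℝ} (hx : 0 < x) {u : ℝ} (hu : 0 ≤ u) :
    Sh lam c u = Real.exp (x * u) * Sh lam (cx lam c x) u -
      x * ∫ v in (0 : ℝ)..u, Real.exp (x * v) * Sh lam (cx lam c x) v := by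
  set c' := cx lam c x with hc'
  have D' : Dat lam c' δ σ := dat_cx D hx.le
  set F : ℕ → ℝ → ℝ := fun n v => Real.exp (x * v) * (if lam n ≤ v then c' n else 0) with hF
  have hFm : ∀ n, Measurable (F n) := fun n => by
    refine Measurable.mul (by fun_prop) ?_
    exact Measurable.ite measurableSet_Ici measurable_const measurable_const
  have hFb : ∀ n, ∀ v ∈ Ioc (0 : ℝ) u, ‖F n v‖ ≤
      Real.exp (x * u) * Real.exp (σ * u) * (|c' n| * Real.exp (-(σ * lam n))) := by
    intro n v hv
    have h1 := sh_term D' v n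
    have h2 : Real.exp (x * v) ≤ Real.exp (x * u) :=
      Real.exp_le_exp.2 (mul_le_mul_of_nonneg_left hv.2 hx.le)
    have h3 : Real.exp (σ * v) ≤ Real.exp (σ * u) :=
      Real.exp_le_exp.2 (mul_le_mul_of_nonneg_left hv.2 D.σ0.le)
    rw [hF]
    simp only
    rw [norm_mul, Real.norm_of_nonneg (Real.exp_pos _).le]
    calc Real.exp (x * v) * ‖(if lam n ≤ v then c' n else 0 : ℝ)‖
        ≤ Real.exp (x * u) * (Real.exp (σ * u) * (|c' n| * Real.exp (-(σ * lam n)))) := by
          refine mul_le_mul h2 (h1.trans ?_) (norm_nonneg _) (Real.exp_pos _).le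
          exact mul_le_mul_of_nonneg_right h3 (by positivity)
      _ = _ := by ring
  have hFi : ∀ n, IntegrableOn (F n) (Ioc 0 u) := fun n => by
    refine Integrable.mono' (g := fun _ => Real.exp (x * u) * Real.exp (σ * u) *
      (|c' n| * Real.exp (-(σ * lam n)))) (integrableOn_const (by simp))
      (hFm n).aestronglyMeasurable ?_
    filter_upwards [ae_restrict_mem measurableSet_Ioc] with v hv
    exact hFb n v hv
  have hFs : Summable fun n => ∫ v in Ioc 0 u, ‖F n v‖ := by
    refine Summable.of_nonneg_of_le (fun n => integral_nonneg fun v => norm_nonneg _) (fun n => ?_)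
      ((D'.sum.mul_left (Real.exp (x * u) * Real.exp (σ * u))).mul_right u)
    calc ∫ v in Ioc 0 u, ‖F n v‖ ≤ ∫ v in Ioc (0 : ℝ) u, Real.exp (x * u) * Real.exp (σ * u) *
          (|c' n| * Real.exp (-(σ * lam n))) := by
          refine setIntegral_mono_on (hFi n).norm (integrableOn_const (by simp)) measurableSet_Ioc
            fun v hv => hFb n v hv
      _ = _ := by
        rw [setIntegral_const, smul_eq_mul]
        simp only [Real.volume_real_Ioc_of_le hu, sub_zero]
        ring
  have h1 := integral_tsum_of_summable_integral_norm hFi hFs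
  have h2 : ∀ v : ℝ, ∑' n, F n v = Real.exp (x * v) * Sh lam c' v := by
    intro v
    unfold Sh
    rw [← tsum_mul_left]
  have h3 : ∀ n, ∫ v in Ioc 0 u, F n v =
      if lam n ≤ u then c' n * ((Real.exp (x * u) - Real.exp (x * lam n)) / x) else 0 := by
    intro n
    have hl0 := D.lam0 n
    split_ifs with h
    · have e1 : ∫ v in Ioc 0 u, F n v = ∫ v in Ioc (lam n) u, c' n * Real.exp (x * v) := by
        have e2 : ∀ v ∈ Ioc (0 : ℝ) u, F n v =
            (Ici (lam n)).indicator (fun v => c' n * Real.exp (x * v)) v := by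
          intro v _
          by_cases hv : lam n ≤ v
          · rw [indicator_of_mem (show v ∈ Ici (lam n) from hv)]
            simp only [hF, if_pos hv]
            ring
          · rw [indicator_of_notMem (show v ∉ Ici (lam n) from hv)]
            simp only [hF, if_neg hv, mul_zero]
        rw [setIntegral_congr_fun measurableSet_Ioc e2, setIntegral_indicator measurableSet_Ici]
        have e3 : Ioc 0 u ∩ Ici (lam n) = Icc (lam n) u := by
          ext v
          simp only [mem_inter_iff, mem_Ioc, mem_Ici, mem_Icc]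
          constructor
          · rintro ⟨⟨_, h5⟩, h6⟩
            exact ⟨h6, h5⟩
          · rintro ⟨h5, h6⟩
            exact ⟨⟨hl0.trans_le h5, h6⟩, h5⟩
        rw [e3, integral_Icc_eq_integral_Ioc]
      rw [e1, ← intervalIntegral.integral_of_le h, intervalIntegral.integral_const_mul,
        int_exp hx]
    · have e2 : ∀ v ∈ Ioc (0 : ℝ) u, F n v = 0 := by
        intro v hv
        have : ¬ lam n ≤ v := fun h5 => h (h5.trans hv.2)
        simp only [hF, if_neg this, mul_zero]
      rw [setIntegral_congr_fun measurableSet_Ioc e2]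
      simp
  rw [intervalIntegral.integral_of_le hu]
  have h4 : ∫ v in Ioc 0 u, Real.exp (x * v) * Sh lam c' v = ∑' n, ∫ v in Ioc 0 u, F n v := by
    rw [h1]
    refine setIntegral_congr_fun measurableSet_Ioc fun v _ => ?_
    exact (h2 v).symm
  have hsum : Summable fun n => ∫ v in Ioc 0 u, F n v := by
    refine Summable.of_norm_bounded hFs fun n => ?_
    exact norm_integral_le_integral_norm _
  rw [h4, ← tsum_mul_left]
  have h5 : Real.exp (x * u) * Sh lam c' u =
      ∑' n, Real.exp (x * u) * (if lam n ≤ u then c' n else 0) := by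
    unfold Sh
    rw [tsum_mul_left]
  rw [h5, ← Summable.tsum_sub ((sh_summable D' u).mul_left _) (hsum.mul_left x)]
  unfold Sh
  refine tsum_congr fun n => ?_
  rw [h3 n]
  split_ifs with h
  · have e1 : c n = c' n * Real.exp (x * lam n) := by
      rw [hc']
      unfold cx
      rw [mul_assoc, ← Real.exp_add, neg_add_cancel, Real.exp_zero, mul_one]
    rw [e1]
    field_simp
    ring
  · ring

variable {G₀ g : ℂ → ℂ} {k p κ : ℕ} {η C : ℝ}

/-- **the mean square to the right of all zeros** -/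
theorem sq_shift (E : Cn lam c δ σ G₀ g k p κ η C) {x₁ x : ℝ} (hx₁ : 0 < x₁) (hx : x₁ < x)
    (hne : ∀ s : ℂ, x₁ < s.re → G₀ s ≠ 0) :
    ∃ q : ℝ, IntegrableOn (fun T : ℝ => (Sh lam (cx lam c x) T - q) ^ 2) (Ioi 1) := by
  have D := E.D
  have hx0 : 0 < x := hx₁.trans hx
  set G' : ℂ → ℂ := fun s => G₀ (s + x) / (s + x) ^ k with hG'
  have hre : ∀ s : ℂ, (s + (x : ℂ)).re = s.re + x := fun s => by simp
  have hnz : ∀ s : ℂ, -(x - x₁) < s.re → s + (x : ℂ) ≠ 0 := by
    intro s hs h0
    have := hre s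
    rw [h0, Complex.zero_re] at this
    linarith
  have hC0 : 0 ≤ C := by
    have := (norm_nonneg _).trans (E.hgrow 0 (by simpa using E.hη))
    simpa using this
  have hd : ∀ s : ℂ, -(x - x₁) < s.re → DifferentiableAt ℂ G' s := by
    intro s hs
    have h1 : DifferentiableAt ℂ G₀ (s + x) := E.hG _ (by rw [hre]; linarith [E.hη])
    have h2 : DifferentiableAt ℂ (fun s : ℂ => s + (x : ℂ)) s := by fun_prop
    exact (h1.comp s h2).div (h2.pow k) (pow_ne_zero _ (hnz s hs))
  have hU : IsOpen {s : ℂ | -(x - x₁) < s.re} := isOpen_lt continuous_const Complex.continuous_re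
  have hana : AnalyticAt ℂ G' 0 :=
    (DifferentiableOn.analyticOnNhd (fun z hz => (hd z hz).differentiableWithinAt) hU) 0
      (show -(x - x₁) < (0 : ℂ).re by rw [Complex.zero_re]; linarith)
  have E' : Cn lam (cx lam c x) δ σ G' G' 0 0 κ (x - x₁) (C * (1 + x) ^ κ / x₁ ^ k) := by
    refine ⟨dat_cx D hx0.le, by linarith, hd, ?_, ?_, hana, ?_, ?_⟩
    · intro s hs
      have h1 : x₁ < (s + (x : ℂ)).re := by rw [hre]; linarith
      have h2 := E.hgrow (s + x) (by linarith [E.hη])
      have h3 : x₁ ≤ ‖s + (x : ℂ)‖ := h1.le.trans (Complex.re_le_norm _)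
      have h4 : 1 + ‖s + (x : ℂ)‖ ≤ (1 + x) * (1 + ‖s‖) := by
        have h5 := norm_add_le s (x : ℂ)
        rw [Complex.norm_real, Real.norm_of_nonneg hx0.le] at h5
        nlinarith [norm_nonneg s]
      rw [hG']
      simp only
      rw [norm_div, norm_pow]
      calc ‖G₀ (s + x)‖ / ‖s + (x : ℂ)‖ ^ k ≤ (C * ((1 + x) * (1 + ‖s‖)) ^ κ) / x₁ ^ k := by
            refine div_le_div₀ (by positivity) (h2.trans ?_) (by positivity)
              (pow_le_pow_left₀ hx₁.le h3 k)
            exact mul_le_mul_of_nonneg_left (pow_le_pow_left₀ (by positivity) h4 κ) hC0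
        _ = _ := by
          rw [mul_pow]
          ring
    · intro s hs
      rw [pow_zero, one_mul, dd_cx, hG']
      simp only
      have h1 : σ < (s + (x : ℂ)).re := by rw [hre]; linarith
      rw [← E.hexp _ h1]
      have h2 : s + (x : ℂ) ≠ 0 := hnz s (by linarith [D.σ0])
      field_simp
    · rw [hG']
      simp only
      exact div_ne_zero (hne _ (by rw [hre, Complex.zero_re]; linarith))
        (pow_ne_zero _ (hnz 0 (by rw [Complex.zero_re]; linarith)))
    · exact Eventually.of_forall fun s => by rw [pow_zero, one_mul]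
  have hne' : ∀ s : ℂ, 0 < s.re → G' s ≠ 0 := by
    intro s hs
    exact div_ne_zero (hne _ (by rw [hre]; linarith)) (pow_ne_zero _ (hnz s (by linarith)))
  obtain ⟨q, -, hq⟩ := E'.sq hne' (r := 0) (by simp)
  refine ⟨q, ?_⟩
  simpa using hq

end Pool.Agent.W5h26.ES
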