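import Pool.Agent.W5h26.ES.Shift

/-!
# Exceptional sets of exponentially small measure
-/

set_option autoImplicit false

open MeasureTheory Filter Topology Set Complex
open scoped ENNReal
open Pool.Agent.TH942.LS (Dat)
open Pool.Agent.TH942.SL
open Pool.Agent.W263.BSD (LInt lap lapC lapC_ofReal lapC_differentiableAt)
open Pool.Agent.TH270.MS

namespace Pool.Agent.W5h26.ES

/-- the measure of `B` between `n` and `n + 1` is at most `e^{-l n}` for all large `n` -/
def Thin (B : Set ℝ) (l : ℝ) : Prop :=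
  ∀ᶠ n : ℕ in atTop, volume (B ∩ Ioc (n : ℝ) (n + 1)) ≤ ENNReal.ofReal (Real.exp (-(l * n)))

lemma Thin.mono {B B' : Set ℝ} {l : ℝ} (h : Thin B l)
    (hs : ∀ᶠ n : ℕ in atTop, B' ∩ Ioc (n : ℝ) (n + 1) ⊆ B) : Thin B' l := by
  filter_upwards [h, hs] with n h1 h2
  refine le_trans (measure_mono ?_) h1
  exact fun u hu => ⟨h2 hu, hu.2⟩

lemma Thin.le {B : Set ℝ} {l l' : ℝ} (h : Thin B l) (hl : l' ≤ l) : Thin B l' := by
  filter_upwards [h] with n h1
  refine h1.trans (ENNReal.ofReal_le_ofReal (Real.exp_le_exp.2 ?_))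
  have : l' * n ≤ l * n := mul_le_mul_of_nonneg_right hl (Nat.cast_nonneg n)
  linarith

lemma union_Ioc (B : Set ℝ) : (⋃ n : ℕ, B ∩ Ioc (n : ℝ) (n + 1)) = B ∩ Ioi 0 := by
  ext u
  simp only [mem_iUnion, mem_inter_iff, mem_Ioc, mem_Ioi]
  constructor
  · rintro ⟨n, h1, h2, -⟩
    exact ⟨h1, lt_of_le_of_lt (Nat.cast_nonneg n) h2⟩
  · rintro ⟨h1, h2⟩
    refine ⟨⌈u⌉₊ - 1, h1, ?_, ?_⟩
    · have h3 : 0 < ⌈u⌉₊ := Nat.ceil_pos.2 h2
      have h4 := Nat.ceil_lt_add_one h2.le
      rw [Nat.cast_sub h3]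
      push_cast
      linarith
    · have h3 : 0 < ⌈u⌉₊ := Nat.ceil_pos.2 h2
      have h4 := Nat.le_ceil u
      rw [Nat.cast_sub h3]
      push_cast
      linarith

/-- exponential functions on a thin set -/
theorem thin_int {B : Set ℝ} (hB : MeasurableSet B) {l β : ℝ} (hT : Thin B l) (hβ : β < l) :
    IntegrableOn (fun u : ℝ => Real.exp (β * u)) (B ∩ Ioi 0) := by
  rw [← union_Ioc]
  have hle : ∀ n : ℕ, ∀ u ∈ B ∩ Ioc (n : ℝ) (n + 1), Real.exp (β * u) ≤
      Real.exp |β| * Real.exp (β * n) := by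
    rintro n u ⟨-, h1, h2⟩
    rw [← Real.exp_add]
    apply Real.exp_le_exp.2
    have h3 : β * (u - n) ≤ |β| * (u - n) := mul_le_mul_of_nonneg_right (le_abs_self β) (by linarith)
    have h4 : |β| * (u - n) ≤ |β| * 1 := mul_le_mul_of_nonneg_left (by linarith) (abs_nonneg β)
    linarith
  have hvol : ∀ n : ℕ, volume (B ∩ Ioc (n : ℝ) (n + 1)) < ⊤ := fun n =>
    lt_of_le_of_lt (measure_mono inter_subset_right) (by simp)
  have hint : ∀ n : ℕ, IntegrableOn (fun u : ℝ => Real.exp (β * u)) (B ∩ Ioc (n : ℝ) (n + 1)) := by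
    intro n
    have h1 : IntegrableOn (fun u : ℝ => Real.exp (β * u)) (Icc (n : ℝ) (n + 1)) :=
      ContinuousOn.integrableOn_Icc (by fun_prop)
    exact h1.mono_set (inter_subset_right.trans Ioc_subset_Icc_self)
  refine integrableOn_iUnion_of_summable_integral_norm hint ?_
  have hs : Summable fun n : ℕ => Real.exp |β| * Real.exp (β - l) ^ n :=
    (summable_geometric_of_lt_one (Real.exp_pos _).le (by
      rw [Real.exp_lt_one_iff]; linarith)).mul_left _
  refine Summable.of_norm_bounded_eventually_nat hs ?_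
  filter_upwards [hT] with n hn
  have h0 : 0 ≤ ∫ u in B ∩ Ioc (n : ℝ) (n + 1), ‖Real.exp (β * u)‖ :=
    integral_nonneg fun u => norm_nonneg _
  rw [Real.norm_of_nonneg h0]
  calc ∫ u in B ∩ Ioc (n : ℝ) (n + 1), ‖Real.exp (β * u)‖
      ≤ ∫ _ in B ∩ Ioc (n : ℝ) (n + 1), Real.exp |β| * Real.exp (β * n) := by
        refine setIntegral_mono_on (hint n).norm (integrableOn_const (hvol n).ne)
          (hB.inter measurableSet_Ioc) fun u hu => ?_
        rw [Real.norm_of_nonneg (Real.exp_pos _).le]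
        exact hle n u hu
    _ = (volume (B ∩ Ioc (n : ℝ) (n + 1))).toReal * (Real.exp |β| * Real.exp (β * n)) := by
        rw [setIntegral_const, smul_eq_mul]
        rfl
    _ ≤ Real.exp (-(l * n)) * (Real.exp |β| * Real.exp (β * n)) := by
        refine mul_le_mul_of_nonneg_right ?_ (by positivity)
        have h1 := ENNReal.toReal_mono ENNReal.ofReal_ne_top hn
        rwa [ENNReal.toReal_ofReal (Real.exp_pos _).le] at h1
    _ = Real.exp |β| * Real.exp (β - l) ^ n := by
        rw [← Real.exp_nat_mul, mul_comm, mul_assoc, ← Real.exp_add]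
        congr 2
        ring

variable {lam c : ℕ → ℝ} {δ σ : ℝ} {G₀ g : ℂ → ℂ} {k p κ : ℕ} {η C : ℝ}

/-- pointwise bound of the partial sums -/
theorem sh_point (D : Dat lam c δ σ) {x q : ℝ} (hx : 0 < x)
    (hq : IntegrableOn (fun T : ℝ => (Sh lam (cx lam c x) T - q) ^ 2) (Ioi 1)) :
    ∃ K : ℝ, 0 ≤ K ∧ ∀ u : ℝ, 1 ≤ u →
      |Sh lam c u| ≤ K * Real.exp (x * u) * (1 + |Sh lam (cx lam c x) u - q|) := by
  set c' := cx lam c x with hc'
  have D' : Dat lam c' δ σ := dat_cx D hx.le
  set h : ℝ → ℝ := fun u => Sh lam c' u - q with hh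
  have hm : Measurable h := (sh_meas D').sub_const q
  set I : ℝ := ∫ u in Ioi (1 : ℝ), h u ^ 2 with hI
  have hI0 : 0 ≤ I := integral_nonneg fun u => sq_nonneg _
  -- local bound
  have hloc : ∀ A : ℝ, ∃ M : ℝ, 0 ≤ M ∧ ∀ v : ℝ, v ≤ A → |Sh lam c' v| ≤ M := by
    intro A
    refine ⟨Real.exp (σ * A) * ∑' n, |c' n| * Real.exp (-(σ * lam n)), ?_, fun v hv => ?_⟩
    · exact mul_nonneg (Real.exp_pos _).le (tsum_nonneg fun n => by positivity)
    · refine (sh_le D' v).trans (mul_le_mul_of_nonneg_right (Real.exp_le_exp.2 ?_)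
        (tsum_nonneg fun n => by positivity))
      exact mul_le_mul_of_nonneg_left hv D.σ0.le
  have hii : ∀ a b : ℝ, a ≤ b → IntervalIntegrable (fun v => Real.exp (x * v) * Sh lam c' v)
      volume a b := by
    intro a b hab
    obtain ⟨M, hM0, hM⟩ := hloc b
    rw [intervalIntegrable_iff_integrableOn_Ioc_of_le hab]
    refine Integrable.mono' (g := fun v => Real.exp (x * v) * M) ?_
      (((by fun_prop : Measurable fun v : ℝ => Real.exp (x * v)).mul
        (sh_meas D')).aestronglyMeasurable) ?_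
    · exact (ContinuousOn.integrableOn_Icc (by fun_prop)).mono_set Ioc_subset_Icc_self
    · filter_upwards [ae_restrict_mem measurableSet_Ioc] with v hv
      rw [norm_mul, Real.norm_of_nonneg (Real.exp_pos _).le]
      exact mul_le_mul_of_nonneg_left (hM v hv.2) (Real.exp_pos _).le
  obtain ⟨M₁, hM₁, hb₁⟩ := hloc 1
  set I₀ : ℝ := Real.exp x * M₁ with hI₀
  have hI₀0 : 0 ≤ I₀ := by positivity
  refine ⟨|q| + 1 + x * (I₀ + (|q| + 1 / 2) / x + I / 2), by positivity, fun u hu => ?_⟩
  have hu0 : 0 ≤ u := by linarith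
  rw [abel D hx hu0, ← hc']
  have e1 : |∫ v in (0 : ℝ)..1, Real.exp (x * v) * Sh lam c' v| ≤ I₀ := by
    have h1 : ∀ v ∈ uIoc (0 : ℝ) 1, ‖Real.exp (x * v) * Sh lam c' v‖ ≤ I₀ := by
      intro v hv
      rw [uIoc_of_le zero_le_one] at hv
      rw [norm_mul, Real.norm_of_nonneg (Real.exp_pos _).le, hI₀]
      refine mul_le_mul (Real.exp_le_exp.2 ?_) (hb₁ v hv.2) (norm_nonneg _) (Real.exp_pos _).le
      nlinarith [hv.2]
    have h2 := intervalIntegral.norm_integral_le_of_norm_le_const h1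
    simpa using h2
  have e2 : |∫ v in (1 : ℝ)..u, Real.exp (x * v) * Sh lam c' v| ≤
      Real.exp (x * u) * ((|q| + 1 / 2) / x + I / 2) := by
    have i1 : IntegrableOn (fun v : ℝ => h v ^ 2) (Ioc 1 u) := hq.mono_set Ioc_subset_Ioi_self
    have i2 : IntervalIntegrable (fun v : ℝ => Real.exp (x * u) * (h v ^ 2 / 2)) volume 1 u := by
      rw [intervalIntegrable_iff_integrableOn_Ioc_of_le hu]
      exact (i1.div_const 2).const_mul _
    have i3 : IntervalIntegrable (fun v : ℝ => (|q| + 1 / 2) * Real.exp (x * v)) volume 1 u :=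
      Continuous.intervalIntegrable (by fun_prop) _ _
    have h1 : |∫ v in (1 : ℝ)..u, Real.exp (x * v) * Sh lam c' v| ≤
        ∫ v in (1 : ℝ)..u, ((|q| + 1 / 2) * Real.exp (x * v) +
          Real.exp (x * u) * (h v ^ 2 / 2)) := by
      refine (intervalIntegral.abs_integral_le_integral_abs hu).trans ?_
      refine intervalIntegral.integral_mono_on hu (hii 1 u hu).abs (i3.add i2) fun v hv => ?_
      rw [abs_mul, abs_of_pos (Real.exp_pos _)]
      have h2 : |Sh lam c' v| ≤ |q| + |h v| := by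
        have h3 : Sh lam c' v = q + h v := by rw [hh]; ring
        rw [h3]
        exact abs_add_le _ _
      have h3 : |h v| ≤ 1 / 2 + h v ^ 2 / 2 := by
        have := sq_nonneg (|h v| - 1)
        have h4 := sq_abs (h v)
        nlinarith
      have h4 : Real.exp (x * v) ≤ Real.exp (x * u) :=
        Real.exp_le_exp.2 (mul_le_mul_of_nonneg_left hv.2 hx.le)
      have h5 := Real.exp_pos (x * v)
      calc Real.exp (x * v) * |Sh lam c' v| ≤ Real.exp (x * v) * (|q| + (1 / 2 + h v ^ 2 / 2)) :=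
            mul_le_mul_of_nonneg_left (h2.trans (by linarith)) h5.le
        _ = (|q| + 1 / 2) * Real.exp (x * v) + Real.exp (x * v) * (h v ^ 2 / 2) := by ring
        _ ≤ _ := by
          have := mul_le_mul_of_nonneg_right h4 (by positivity : 0 ≤ h v ^ 2 / 2)
          linarith
    refine h1.trans ?_
    rw [intervalIntegral.integral_add i3 i2, intervalIntegral.integral_const_mul,
      intervalIntegral.integral_const_mul, int_exp hx, intervalIntegral.integral_div]
    have h2 : ∫ v in (1 : ℝ)..u, h v ^ 2 ≤ I := by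
      rw [intervalIntegral.integral_of_le hu]
      exact setIntegral_mono_set hq (Eventually.of_forall fun v => sq_nonneg _)
        Ioc_subset_Ioi_self.eventuallyLE
    have h3 : (Real.exp (x * u) - Real.exp (x * 1)) / x ≤ Real.exp (x * u) / x :=
      div_le_div_of_nonneg_right (by linarith [Real.exp_pos (x * 1)]) hx.le
    have h4 : 0 ≤ |q| + 1 / 2 := by positivity
    have h5 := Real.exp_pos (x * u)
    calc (|q| + 1 / 2) * ((Real.exp (x * u) - Real.exp (x * 1)) / x) +
          Real.exp (x * u) * ((∫ v in (1 : ℝ)..u, h v ^ 2) / 2)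
        ≤ (|q| + 1 / 2) * (Real.exp (x * u) / x) + Real.exp (x * u) * (I / 2) := by gcongr
      _ = _ := by ring
  have e3 : |Real.exp (x * u) * Sh lam c' u| ≤ Real.exp (x * u) * (|q| + |h u|) := by
    rw [abs_mul, abs_of_pos (Real.exp_pos _)]
    refine mul_le_mul_of_nonneg_left ?_ (Real.exp_pos _).le
    have h3 : Sh lam c' u = q + h u := by rw [hh]; ring
    rw [h3]
    exact abs_add_le _ _
  have e4 : 1 ≤ Real.exp (x * u) := Real.one_le_exp (mul_nonneg hx.le hu0)
  rw [← intervalIntegral.integral_add_adjacent_intervals (hii 0 1 zero_le_one) (hii 1 u hu)]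
  set J₁ := ∫ v in (0 : ℝ)..1, Real.exp (x * v) * Sh lam c' v
  set J₂ := ∫ v in (1 : ℝ)..u, Real.exp (x * v) * Sh lam c' v
  set w := Real.exp (x * u)
  have h0 : 0 ≤ |h u| := abs_nonneg _
  calc |w * Sh lam c' u - x * (J₁ + J₂)| ≤ |w * Sh lam c' u| + |x * (J₁ + J₂)| := abs_sub _ _
    _ ≤ w * (|q| + |h u|) + x * (I₀ + w * ((|q| + 1 / 2) / x + I / 2)) := by
        rw [abs_mul x, abs_of_pos hx]
        refine add_le_add e3 (mul_le_mul_of_nonneg_left ?_ hx.le)
        exact (abs_add_le _ _).trans (add_le_add e1 e2)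
    _ ≤ w * (|q| + |h u|) + x * (w * I₀ + w * ((|q| + 1 / 2) / x + I / 2)) := by
        have : I₀ ≤ w * I₀ := le_mul_of_one_le_left hI₀0 e4
        gcongr
    _ = w * (|q| + |h u| + x * (I₀ + (|q| + 1 / 2) / x + I / 2)) := by ring
    _ ≤ w * ((|q| + 1 + x * (I₀ + (|q| + 1 / 2) / x + I / 2)) * (1 + |h u|)) := by
        refine mul_le_mul_of_nonneg_left ?_ (by positivity)
        have h6 : 0 ≤ x * (I₀ + (|q| + 1 / 2) / x + I / 2) := by positivity
        have h7 : 0 ≤ |q| := abs_nonneg q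
        nlinarith [mul_nonneg h7 h0, mul_nonneg h6 h0]
    _ = _ := by ring

/-- **the partial sums are integrable over thin sets with a smaller weight** -/
theorem step (E : Cn lam c δ σ G₀ g k p κ η C) {x₁ l : ℝ} (hx₁ : 0 < x₁) (hl : 0 < l)
    (hne : ∀ s : ℂ, x₁ < s.re → G₀ s ≠ 0) {B : Set ℝ} (hB : MeasurableSet B) (hT : Thin B l)
    {y : ℝ} (hy : x₁ - l / 2 < y) :
    IntegrableOn (fun u => Sh lam c u * Real.exp (-(y * u))) (B ∩ Ioi 0) := by
  have D := E.D
  set x : ℝ := x₁ + (y - (x₁ - l / 2)) / 2 with hx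
  have hx1 : x₁ < x := by rw [hx]; linarith
  have hxy : x - l / 2 < y := by rw [hx]; linarith
  have hx0 : 0 < x := hx₁.trans hx1
  obtain ⟨q, hq⟩ := sq_shift E hx₁ hx1 hne
  obtain ⟨K, hK, hb⟩ := sh_point D hx0 hq
  have hm : Measurable fun u => Sh lam c u * Real.exp (-(y * u)) := (sh_meas D).mul (by fun_prop)
  have hsplit : B ∩ Ioi 0 ⊆ (B ∩ Ioc 0 1) ∪ (B ∩ Ioi 1) := by
    rintro u ⟨h1, h2⟩
    rcases le_or_gt u 1 with h | h
    · exact Or.inl ⟨h1, h2, h⟩
    · exact Or.inr ⟨h1, h⟩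
  refine IntegrableOn.mono_set (IntegrableOn.union ?_ ?_) hsplit
  · have h1 : IntegrableOn (fun u => Sh lam c u * Real.exp (-(y * u))) (Ioc 0 1) := by
      refine Integrable.mono' (g := fun u => Real.exp (σ * 1) *
        (∑' n, |c n| * Real.exp (-(σ * lam n))) * Real.exp (-(y * u))) ?_
        hm.aestronglyMeasurable ?_
      · exact (ContinuousOn.integrableOn_Icc (by fun_prop)).mono_set Ioc_subset_Icc_self
      · filter_upwards [ae_restrict_mem measurableSet_Ioc] with u hu
        rw [norm_mul, Real.norm_of_nonneg (Real.exp_pos _).le]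
        refine mul_le_mul_of_nonneg_right ((sh_le D u).trans ?_) (Real.exp_pos _).le
        refine mul_le_mul_of_nonneg_right (Real.exp_le_exp.2 ?_)
          (tsum_nonneg fun n => by positivity)
        exact mul_le_mul_of_nonneg_left hu.2 D.σ0.le
    exact h1.mono_set inter_subset_right
  · set h : ℝ → ℝ := fun u => Sh lam (cx lam c x) u - q with hh
    have i1 : IntegrableOn (fun u => K * (3 / 2) * Real.exp ((x - y + l / 2) * u)) (B ∩ Ioi 1) :=
      ((thin_int hB hT (β := x - y + l / 2) (by linarith)).mono_set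
        (inter_subset_inter_right B (Ioi_subset_Ioi zero_le_one))).const_mul _
    have i2 : IntegrableOn (fun u => K * (1 / 2) * h u ^ 2) (B ∩ Ioi 1) :=
      (hq.mono_set inter_subset_right).const_mul _
    refine Integrable.mono' (i1.add i2) hm.aestronglyMeasurable ?_
    filter_upwards [ae_restrict_mem (hB.inter measurableSet_Ioi)] with u hu
    have hu1 : (1 : ℝ) < u := hu.2
    have hu0 : 0 < u := by linarith
    have h1 := hb u hu1.le
    rw [norm_mul, Real.norm_of_nonneg (Real.exp_pos _).le, Real.norm_eq_abs]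
    simp only [Pi.add_apply]
    set w : ℝ := Real.exp (l / 2 * u) with hw
    have hw0 : 0 < w := Real.exp_pos _
    have hwi : w * Real.exp (-(l / 2 * u)) = 1 := by
      rw [hw, ← Real.exp_add, add_neg_cancel, Real.exp_zero]
    have h2 : 1 + |h u| ≤ 1 + (w + Real.exp (-(l / 2 * u)) * h u ^ 2) / 2 := by
      have h3 : 0 ≤ Real.exp (-(l / 2 * u)) * (w - |h u|) ^ 2 := by positivity
      have h4 : Real.exp (-(l / 2 * u)) * (w - |h u|) ^ 2 =
          (w * Real.exp (-(l / 2 * u))) * w - 2 * (w * Real.exp (-(l / 2 * u))) * |h u| +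
            Real.exp (-(l / 2 * u)) * |h u| ^ 2 := by ring
      rw [h4, hwi, sq_abs] at h3
      linarith
    have hw1 : 1 ≤ w := Real.one_le_exp (by positivity)
    calc |Sh lam c u| * Real.exp (-(y * u))
        ≤ (K * Real.exp (x * u) * (1 + |h u|)) * Real.exp (-(y * u)) :=
          mul_le_mul_of_nonneg_right h1 (Real.exp_pos _).le
      _ ≤ (K * Real.exp (x * u) * (1 + (w + Real.exp (-(l / 2 * u)) * h u ^ 2) / 2)) *
          Real.exp (-(y * u)) := by gcongr
      _ ≤ (K * Real.exp (x * u) * (w + (w + Real.exp (-(l / 2 * u)) * h u ^ 2) / 2)) *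
          Real.exp (-(y * u)) := by gcongr
      _ = K * (3 / 2) * (Real.exp (x * u) * w * Real.exp (-(y * u))) +
          K * (1 / 2) * ((Real.exp (x * u) * Real.exp (-(l / 2 * u)) * Real.exp (-(y * u))) *
            h u ^ 2) := by ring
      _ ≤ K * (3 / 2) * Real.exp ((x - y + l / 2) * u) + K * (1 / 2) * (1 * h u ^ 2) := by
          have e1 : Real.exp (x * u) * w * Real.exp (-(y * u)) =
              Real.exp ((x - y + l / 2) * u) := by
            rw [hw, ← Real.exp_add, ← Real.exp_add]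
            congr 1
            ring
          have e2 : Real.exp (x * u) * Real.exp (-(l / 2 * u)) * Real.exp (-(y * u)) ≤ 1 := by
            rw [← Real.exp_add, ← Real.exp_add, Real.exp_le_one_iff]
            nlinarith
          rw [e1]
          gcongr
      _ = _ := by ring

end Pool.Agent.W5h26.ES
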